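import Mathlib
import Pool.Agent.Y877.SxA
import Pool.Agent.H692R2.USS.T1

set_option autoImplicit false

/-! The weight of the differences of a prime and the other primes (helper733). -/

namespace Pool.Agent.N733.DG

open Finset Pool.Agent.Y877.SX Pool.Agent.H373R2.T7

/-- the primes up to `x` -/
def PX (x : ℕ) : Finset ℕ := (Icc 1 x).filter Nat.Prime

lemma inv_fac {p : ℕ} (hp : p.Prime) : (1 - 1 / (p : ℝ))⁻¹ = 1 + 1 / ((p : ℝ) - 1) := by
  have : (2 : ℝ) ≤ p := by exact_mod_cast hp.two_le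
  have h1 : (p : ℝ) ≠ 0 := by linarith
  have h2 : (p : ℝ) - 1 ≠ 0 := by linarith
  field_simp
  ring

lemma fd_expand (y z d : ℕ) : fd y z d = ∑ U ∈ (mid y z).powerset, if ∀ p ∈ U, p ∣ d then ∏ p ∈ U, 1 / ((p : ℝ) - 1) else 0 := by
  unfold fd
  rw [prod_congr rfl (fun p hp => inv_fac (mem_mid.1 (mem_filter.1 hp).1).2.2)]
  rw [Finset.prod_one_add, ← sum_filter]
  apply sum_congr _ (fun _ _ => rfl)
  ext U
  rw [mem_powerset, mem_filter, mem_powerset]
  constructor
  · intro h
    exact ⟨fun p hp => (mem_filter.1 (h hp)).1, fun p hp => (mem_filter.1 (h hp)).2⟩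
  · rintro ⟨h1, h2⟩ p hp
    exact mem_filter.2 ⟨h1 hp, h2 p hp⟩

/-- the product of a set of primes -/
def eU (U : Finset ℕ) : ℕ := ∏ p ∈ U, p

lemma eU_pos {U : Finset ℕ} (hU : ∀ p ∈ U, p.Prime) : 0 < eU U := prod_pos (fun p hp => (hU p hp).pos)

lemma eU_dvd {U : Finset ℕ} (hU : ∀ p ∈ U, p.Prime) {d : ℕ} (h : ∀ p ∈ U, p ∣ d) : eU U ∣ d := by
  unfold eU
  apply Finset.prod_primes_dvd _ (fun p hp => (hU p hp).prime) h

lemma phi_eU {U : Finset ℕ} (hU : ∀ p ∈ U, p.Prime) : ((Nat.totient (eU U) : ℕ) : ℝ) = ∏ p ∈ U, ((p : ℝ) - 1) := by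
  classical
  induction U using Finset.induction_on with
  | empty => simp [eU]
  | insert a s ha ih =>
    have h1 : eU (insert a s) = a * eU s := by unfold eU; rw [prod_insert ha]
    have h2 := ih (fun p hp => hU p (mem_insert_of_mem hp))
    rw [h1, prod_insert ha, Nat.totient_mul, Nat.cast_mul, h2, Nat.totient_prime (hU a (mem_insert_self _ _)),
      Nat.cast_sub (hU a (mem_insert_self _ _)).one_le]
    · simp
    · unfold eU
      apply Nat.Coprime.prod_right
      intro p hp
      rw [Nat.coprime_primes (hU a (mem_insert_self _ _)) (hU p (mem_insert_of_mem hp))]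
      rintro rfl
      exact ha hp

/-- integers in a class -/
lemma class_card (x s e : ℕ) (he : 1 ≤ e) (hs : 1 ≤ s) (hsx : s ≤ x) :
    (((Icc 1 x).filter (fun t => t ≠ s ∧ e ∣ Nat.dist s t)).card : ℝ) ≤ 2 * (x : ℝ) / e := by
  have h1 : (Icc 1 x).filter (fun t => t ≠ s ∧ e ∣ Nat.dist s t) ⊆
      (Icc 1 (x / e)).image (fun k => s + k * e) ∪ (Icc 1 (x / e)).image (fun k => s - k * e) := by
    intro t ht
    rw [mem_filter, mem_Icc] at ht
    obtain ⟨⟨h1, h2⟩, h3, h4⟩ := ht
    obtain ⟨k, hk⟩ := h4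
    rw [mem_union, mem_image, mem_image]
    have hk0 : 1 ≤ k := by
      rcases Nat.eq_zero_or_pos k with h | h
      · rw [h, mul_zero] at hk
        exact absurd (Nat.eq_of_dist_eq_zero hk).symm h3
      · exact h
    have hkx : k ≤ x / e := by
      rw [Nat.le_div_iff_mul_le (by omega)]
      have : Nat.dist s t ≤ x := by
        unfold Nat.dist
        omega
      rw [mul_comm]
      omega
    rcases Nat.lt_or_ge s t with h | h
    · left
      refine ⟨k, by rw [mem_Icc]; exact ⟨hk0, hkx⟩, ?_⟩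
      rw [Nat.dist_eq_sub_of_le h.le] at hk
      rw [mul_comm]
      omega
    · right
      refine ⟨k, by rw [mem_Icc]; exact ⟨hk0, hkx⟩, ?_⟩
      rw [Nat.dist_eq_sub_of_le_right h] at hk
      rw [mul_comm]
      omega
  have h2 := card_le_card h1
  have h3 : ((Icc 1 x).filter (fun t => t ≠ s ∧ e ∣ Nat.dist s t)).card ≤ x / e + x / e := by
    refine h2.trans ((card_union_le _ _).trans ?_)
    have a1 := card_image_le (s := Icc 1 (x / e)) (f := fun k => s + k * e)
    have a2 := card_image_le (s := Icc 1 (x / e)) (f := fun k => s - k * e)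
    rw [Nat.card_Icc, Nat.add_sub_cancel] at a1 a2
    exact Nat.add_le_add a1 a2
  have h4 : ((x / e : ℕ) : ℝ) ≤ x / e := Nat.cast_div_le
  calc (((Icc 1 x).filter (fun t => t ≠ s ∧ e ∣ Nat.dist s t)).card : ℝ) ≤ ((x / e + x / e : ℕ) : ℝ) := by exact_mod_cast h3
    _ = ((x / e : ℕ) : ℝ) + ((x / e : ℕ) : ℝ) := by push_cast; ring
    _ ≤ x / e + x / e := by linarith
    _ = 2 * (x : ℝ) / e := by ring

/-- primes in a class -/
lemma prime_class_card (x s e : ℕ) (he : 1 ≤ e) (hx : 16 ≤ x) (hex : (e : ℝ) ≤ √x) :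
    (((PX x).filter (fun t => e ∣ Nat.dist s t)).card : ℝ) ≤ 88 * ((x : ℝ) / (Nat.totient e * Real.log x)) := by
  have hxr : (16 : ℝ) ≤ x := by exact_mod_cast hx
  have her : (1 : ℝ) ≤ e := by exact_mod_cast he
  have hphi : (0 : ℝ) < Nat.totient e := by exact_mod_cast Nat.totient_pos.2 he
  have hs4 : (4 : ℝ) ≤ √x := by
    apply Real.le_sqrt_of_sq_le
    linarith
  have hss : √(x : ℝ) * √x = x := Real.mul_self_sqrt (by linarith)
  have hlx : 0 < Real.log x := Real.log_pos (by linarith)
  obtain ⟨n, hn⟩ : ∃ n, n = x / e + 1 := ⟨_, rfl⟩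
  have hn1 : (x : ℝ) / e ≤ n := by
    rw [hn]
    push_cast
    rw [div_le_iff₀ (by linarith)]
    have h2 := Nat.lt_div_mul_add (a := x) (b := e) (by omega)
    have h3 : (x : ℝ) ≤ ((x / e * e + e : ℕ) : ℝ) := by exact_mod_cast h2.le
    push_cast at h3
    linarith
  have hxe : √(x : ℝ) ≤ x / e := by
    rw [le_div_iff₀ (by linarith)]
    calc √(x : ℝ) * e ≤ √x * √x := mul_le_mul_of_nonneg_left hex (Real.sqrt_nonneg _)
      _ = x := hss
  have hn2 : (n : ℝ) ≤ 2 * (x / e) := by
    rw [hn]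
    push_cast
    have : ((x / e : ℕ) : ℝ) ≤ x / e := Nat.cast_div_le
    linarith
  have hnr : (4 : ℝ) ≤ n := by linarith
  have hn2' : 2 ≤ n := by
    have : (2 : ℝ) ≤ n := by linarith
    exact_mod_cast this
  have h1 := Pool.Agent.H692R2.USS.t1_brun_titchmarsh (s % e) e n hn2' he
  have h2 : ((PX x).filter (fun t => e ∣ Nat.dist s t)).card ≤ ((range n).filter (fun k => (s % e + k * e).Prime)).card := by
    apply card_le_card_of_injOn (fun t => t / e)
    · intro t ht
      rw [mem_coe, mem_filter, PX, mem_filter, mem_Icc] at ht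
      obtain ⟨⟨⟨h1, h2⟩, h3⟩, h4⟩ := ht
      have hmod : t % e = s % e := by
        rcases Nat.le_total s t with h | h
        · rw [Nat.dist_eq_sub_of_le h] at h4
          exact ((Nat.modEq_iff_dvd' h).2 h4).symm
        · rw [Nat.dist_eq_sub_of_le_right h] at h4
          exact (Nat.modEq_iff_dvd' h).2 h4
      rw [mem_coe, mem_filter, mem_range]
      refine ⟨?_, ?_⟩
      · rw [hn]
        exact Nat.lt_succ_of_le (Nat.div_le_div_right h2)
      · rw [← hmod]
        have : t % e + t / e * e = t := by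
          rw [mul_comm]
          exact Nat.mod_add_div t e
        rw [this]
        exact h3
    · intro t ht u hu htu
      rw [mem_coe, mem_filter, PX, mem_filter, mem_Icc] at ht hu
      have hmod : ∀ v, e ∣ Nat.dist s v → v % e = s % e := by
        intro v h4
        rcases Nat.le_total s v with h | h
        · rw [Nat.dist_eq_sub_of_le h] at h4
          exact ((Nat.modEq_iff_dvd' h).2 h4).symm
        · rw [Nat.dist_eq_sub_of_le_right h] at h4
          exact (Nat.modEq_iff_dvd' h).2 h4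
      have e1 := hmod t ht.2
      have e2 := hmod u hu.2
      simp only at htu
      rw [← Nat.mod_add_div t e, ← Nat.mod_add_div u e, e1, e2, htu]
  have h3 : Real.log x / 2 ≤ Real.log n := by
    have : √(x : ℝ) ≤ n := hxe.trans hn1
    have h4 := Real.log_le_log (by linarith) this
    rwa [Real.log_sqrt (by linarith)] at h4
  calc (((PX x).filter (fun t => e ∣ Nat.dist s t)).card : ℝ)
      ≤ (((range n).filter (fun k => (s % e + k * e).Prime)).card : ℝ) := by exact_mod_cast h2
    _ ≤ 22 * ((e : ℝ) / Nat.totient e) * n / Real.log n := h1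
    _ ≤ 22 * ((e : ℝ) / Nat.totient e) * (2 * (x / e)) / (Real.log x / 2) := by
        apply div_le_div₀ (by positivity) _ (by positivity) h3
        exact mul_le_mul_of_nonneg_left hn2 (by positivity)
    _ = 88 * ((x : ℝ) / (Nat.totient e * Real.log x)) := by
        field_simp
        ring

end Pool.Agent.N733.DG
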