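import Mathlib
import Pool.Agent.N733.DG.A

set_option autoImplicit false

/-! The weight of the differences of a prime and the other primes: the sum (helper733). -/

namespace Pool.Agent.N733.DG

open Finset Pool.Agent.Y877.SX Pool.Agent.H373R2.T7

lemma tele2 (y z : ℕ) (hy : 1 ≤ y) : ∑ n ∈ Ioc y z, 1 / ((n : ℝ) - 1) ^ 2 ≤ 2 / (y : ℝ) := by
  rcases Nat.lt_or_ge z y with h | h
  · rw [Ioc_eq_empty (by omega), sum_empty]
    positivity
  have h1 : ∀ n ∈ Ioc y z, 1 / ((n : ℝ) - 1) ^ 2 ≤ 2 * (1 / ((n : ℝ) - 1) - 1 / n) := by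
    intro n hn
    rw [mem_Ioc] at hn
    have h2 : (2 : ℝ) ≤ n := by exact_mod_cast (by omega : 2 ≤ n)
    have h3 : (0 : ℝ) < n - 1 := by linarith
    rw [div_sub_div _ _ h3.ne' (by linarith), ← mul_div_assoc, div_le_div_iff₀ (by positivity) (by positivity)]
    nlinarith
  have h4 : ∀ M : ℕ, y ≤ M → ∑ n ∈ Ioc y M, (1 / ((n : ℝ) - 1) - 1 / (n : ℝ)) = 1 / (y : ℝ) - 1 / (M : ℝ) := by
    intro M hM
    induction M, hM using Nat.le_induction with
    | base => simp
    | succ n hn ih =>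
      rw [Finset.sum_Ioc_succ_top (by omega), ih]
      push_cast
      ring
  refine (sum_le_sum h1).trans ?_
  rw [← mul_sum, h4 z h]
  have : (0 : ℝ) ≤ 1 / (z : ℝ) := by positivity
  have e : (2 : ℝ) / y = 2 * (1 / y) := by ring
  rw [e]
  linarith

lemma prod_sub_one (y z : ℕ) (hy : 4 ≤ y) : ∏ p ∈ mid y z, (1 + (1 / ((p : ℝ) - 1)) ^ 2) - 1 ≤ 4 / (y : ℝ) := by
  have hyr : (4 : ℝ) ≤ y := by exact_mod_cast hy
  have h1 : ∑ p ∈ mid y z, (1 / ((p : ℝ) - 1)) ^ 2 ≤ 2 / (y : ℝ) := by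
    refine le_trans ?_ (tele2 y z (by omega))
    have h2 : mid y z ⊆ Ioc y z := by
      intro p hp
      rw [mem_mid] at hp
      rw [mem_Ioc]
      exact ⟨hp.1, hp.2.1⟩
    refine le_trans (sum_le_sum_of_subset_of_nonneg h2 (fun _ _ _ => by positivity)) (le_of_eq ?_)
    apply sum_congr rfl
    intro n _
    rw [div_pow, one_pow]
  have h3 : ∏ p ∈ mid y z, (1 + (1 / ((p : ℝ) - 1)) ^ 2) ≤ Real.exp (2 / y) := by
    refine le_trans ?_ (Real.exp_le_exp.2 h1)
    rw [Real.exp_sum]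
    apply prod_le_prod
    · intro p _
      positivity
    · intro p _
      have := Real.add_one_le_exp ((1 / ((p : ℝ) - 1)) ^ 2)
      linarith
  have h4 : Real.exp (2 / y) ≤ 1 + 4 / y := by
    have h5 := Real.add_one_le_exp (-(2 / (y : ℝ)))
    have h6 : Real.exp (2 / y) * Real.exp (-(2 / (y : ℝ))) = 1 := by
      rw [← Real.exp_add]
      simp
    have h7 : (0 : ℝ) < 1 - 2 / y := by
      have : (2 : ℝ) / y ≤ 1 / 2 := by
        rw [div_le_div_iff₀ (by linarith) (by norm_num)]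
        linarith
      linarith
    have h8 : Real.exp (2 / y) * (1 - 2 / y) ≤ 1 := by
      rw [← h6]
      apply mul_le_mul_of_nonneg_left _ (Real.exp_pos _).le
      linarith
    have h9 : (1 : ℝ) ≤ (1 + 4 / y) * (1 - 2 / y) := by
      have : (2 : ℝ) / y ≤ 1 / 2 := by
        rw [div_le_div_iff₀ (by linarith) (by norm_num)]
        linarith
      have e : (1 + 4 / (y : ℝ)) * (1 - 2 / y) = 1 + 2 / y * (1 - 4 / y) := by
        field_simp
        ring
      rw [e]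
      have h10 : 0 ≤ 1 - 4 / (y : ℝ) := by
        have : (4 : ℝ) / y ≤ 1 := by
          rw [div_le_one (by linarith)]
          exact hyr
        linarith
      have : 0 ≤ 2 / (y : ℝ) * (1 - 4 / y) := by positivity
      linarith
    exact le_of_mul_le_mul_right (h8.trans h9) h7
  linarith

lemma prod_inv_le (y z : ℕ) (hyz : y ≤ z) (hz : 1 ≤ z) : ∏ p ∈ mid y z, (1 + 1 / ((p : ℝ) - 1)) ≤ (z : ℝ) := by
  have h1 : ∏ p ∈ mid y z, (1 + 1 / ((p : ℝ) - 1)) = (Vm y z)⁻¹ := by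
    unfold Vm
    rw [← prod_inv_distrib]
    apply prod_congr rfl
    intro p hp
    rw [inv_fac (mem_mid.1 hp).2.2]
  rw [h1]
  have h2 := Vz_ge z hz
  have h3 : Vz z ≤ Vm y z := by
    rw [Vz_split y z hyz]
    have h4 : Vz y ≤ 1 := Vz_le_one y
    have h5 := Vm_pos y z
    nlinarith
  have hz0 : (0 : ℝ) < z := by exact_mod_cast hz
  rw [inv_le_comm₀ (Vm_pos y z) hz0, ← one_div]
  exact h2.trans h3

lemma NU_le (x y z s : ℕ) (hx : 16 ≤ x) (hs : 1 ≤ s) (hsx : s ≤ x) (U : Finset ℕ) (hU : U ⊆ mid y z) :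
    ((((PX x).erase s).filter (fun t => ∀ p ∈ U, p ∣ Nat.dist s t)).card : ℝ) ≤
      88 * (x / Real.log x) * ∏ p ∈ U, 1 / ((p : ℝ) - 1) + 2 * √x := by
  have hUp : ∀ p ∈ U, p.Prime := fun p hp => (mem_mid.1 (hU hp)).2.2
  have he := eU_pos hUp
  have hxr : (16 : ℝ) ≤ x := by exact_mod_cast hx
  have hlx : 0 < Real.log x := Real.log_pos (by linarith)
  have hw : (0 : ℝ) ≤ ∏ p ∈ U, 1 / ((p : ℝ) - 1) := by
    apply prod_nonneg
    intro p hp
    have : (2 : ℝ) ≤ p := by exact_mod_cast (hUp p hp).two_le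
    have : (0 : ℝ) < (p : ℝ) - 1 := by linarith
    positivity
  have hss : √(x : ℝ) * √x = x := Real.mul_self_sqrt (by linarith)
  by_cases h : (eU U : ℝ) ≤ √x
  · have h1 := prime_class_card x s (eU U) he hx h
    have h2 : (((PX x).erase s).filter (fun t => ∀ p ∈ U, p ∣ Nat.dist s t)).card ≤
        ((PX x).filter (fun t => eU U ∣ Nat.dist s t)).card := by
      apply card_le_card
      intro t ht
      rw [mem_filter, mem_erase] at ht
      rw [mem_filter]
      exact ⟨ht.1.2, eU_dvd hUp ht.2⟩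
    have h3 : 88 * ((x : ℝ) / (Nat.totient (eU U) * Real.log x)) = 88 * (x / Real.log x) * ∏ p ∈ U, 1 / ((p : ℝ) - 1) := by
      rw [phi_eU hUp, prod_div_distrib, prod_const_one]
      have : ∏ p ∈ U, ((p : ℝ) - 1) ≠ 0 := by
        rw [prod_ne_zero_iff]
        intro p hp
        have : (2 : ℝ) ≤ p := by exact_mod_cast (hUp p hp).two_le
        linarith
      field_simp
    have h4 : ((((PX x).erase s).filter (fun t => ∀ p ∈ U, p ∣ Nat.dist s t)).card : ℝ) ≤
        88 * (x / Real.log x) * ∏ p ∈ U, 1 / ((p : ℝ) - 1) := by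
      rw [← h3]
      exact le_trans (by exact_mod_cast h2) h1
    have : 0 ≤ √(x : ℝ) := Real.sqrt_nonneg _
    linarith
  · push Not at h
    have h1 := class_card x s (eU U) he hs hsx
    have h2 : (((PX x).erase s).filter (fun t => ∀ p ∈ U, p ∣ Nat.dist s t)).card ≤
        ((Icc 1 x).filter (fun t => t ≠ s ∧ eU U ∣ Nat.dist s t)).card := by
      apply card_le_card
      intro t ht
      rw [mem_filter, mem_erase, PX, mem_filter] at ht
      rw [mem_filter]
      exact ⟨ht.1.2.1, ht.1.1, eU_dvd hUp ht.2⟩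
    have h3 : 2 * (x : ℝ) / eU U ≤ 2 * √x := by
      have he0 : (0 : ℝ) < eU U := by exact_mod_cast he
      rw [div_le_iff₀ he0]
      have : 0 ≤ √(x : ℝ) := Real.sqrt_nonneg _
      nlinarith
    have h4 : ((((PX x).erase s).filter (fun t => ∀ p ∈ U, p ∣ Nat.dist s t)).card : ℝ) ≤ 2 * √x :=
      le_trans (le_trans (by exact_mod_cast h2) h1) h3
    have : 0 ≤ 88 * ((x : ℝ) / Real.log x) * ∏ p ∈ U, 1 / ((p : ℝ) - 1) := by positivity
    linarith

theorem fd_primes_raw (x y z s : ℕ) (hx : 16 ≤ x) (hs : 1 ≤ s) (hsx : s ≤ x) (hy : 4 ≤ y) (hyz : y ≤ z) :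
    ∑ t ∈ (PX x).erase s, (fd y z (Nat.dist s t) - 1) ≤ 88 * (x / Real.log x) * (4 / y) + 2 * √x * z := by
  have hxr : (16 : ℝ) ≤ x := by exact_mod_cast hx
  have hlx : 0 < Real.log x := Real.log_pos (by linarith)
  obtain ⟨w, hw⟩ : ∃ w : Finset ℕ → ℝ, w = fun (U : Finset ℕ) => ∏ p ∈ U, 1 / ((p : ℝ) - 1) := ⟨_, rfl⟩
  have hw0 : ∀ U ⊆ mid y z, 0 ≤ w U := by
    intro U hU
    rw [hw]
    apply prod_nonneg
    intro p hp
    have : (2 : ℝ) ≤ p := by exact_mod_cast (mem_mid.1 (hU hp)).2.2.two_le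
    have : (0 : ℝ) < (p : ℝ) - 1 := by linarith
    positivity
  have h1 : ∀ t, fd y z (Nat.dist s t) - 1 = ∑ U ∈ (mid y z).powerset.erase ∅,
      if ∀ p ∈ U, p ∣ Nat.dist s t then w U else 0 := by
    intro t
    rw [fd_expand, ← add_sum_erase _ _ (empty_mem_powerset _), hw]
    simp
  have h2 : ∑ t ∈ (PX x).erase s, (fd y z (Nat.dist s t) - 1) = ∑ U ∈ (mid y z).powerset.erase ∅,
      w U * ((((PX x).erase s).filter (fun t => ∀ p ∈ U, p ∣ Nat.dist s t)).card : ℝ) := by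
    simp_rw [h1]
    rw [sum_comm]
    apply sum_congr rfl
    intro U _
    rw [← sum_filter, sum_const, nsmul_eq_mul, mul_comm]
  rw [h2]
  have h3 : ∀ U ∈ (mid y z).powerset.erase ∅,
      w U * ((((PX x).erase s).filter (fun t => ∀ p ∈ U, p ∣ Nat.dist s t)).card : ℝ) ≤
      88 * (x / Real.log x) * w U ^ 2 + 2 * √x * w U := by
    intro U hU
    rw [mem_erase, mem_powerset] at hU
    have h4 := NU_le x y z s hx hs hsx U hU.2
    have h5 := hw0 U hU.2
    have h6 : ∏ p ∈ U, 1 / ((p : ℝ) - 1) = w U := by rw [hw]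
    rw [h6] at h4
    calc w U * _ ≤ w U * (88 * (x / Real.log x) * w U + 2 * √x) := mul_le_mul_of_nonneg_left h4 h5
      _ = _ := by ring
  refine (sum_le_sum h3).trans ?_
  rw [sum_add_distrib, ← mul_sum, ← mul_sum]
  have h7 : ∑ U ∈ (mid y z).powerset.erase ∅, w U ^ 2 = ∏ p ∈ mid y z, (1 + (1 / ((p : ℝ) - 1)) ^ 2) - 1 := by
    rw [Finset.prod_one_add, ← add_sum_erase _ _ (empty_mem_powerset (mid y z)), hw]
    simp only [prod_empty, add_sub_cancel_left]
    apply sum_congr rfl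
    intro U _
    rw [prod_pow]
  have h8 : ∑ U ∈ (mid y z).powerset.erase ∅, w U ≤ ∏ p ∈ mid y z, (1 + 1 / ((p : ℝ) - 1)) := by
    rw [Finset.prod_one_add]
    have : ∑ U ∈ (mid y z).powerset, ∏ p ∈ U, 1 / ((p : ℝ) - 1) = ∑ U ∈ (mid y z).powerset, w U := by rw [hw]
    rw [this]
    apply sum_le_sum_of_subset_of_nonneg (erase_subset _ _)
    intro U hU _
    exact hw0 U (mem_powerset.1 hU)
  have h9 := prod_sub_one y z hy
  have h10 := prod_inv_le y z hyz (by omega)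
  rw [h7]
  apply add_le_add
  · apply mul_le_mul_of_nonneg_left h9
    positivity
  · apply mul_le_mul_of_nonneg_left (h8.trans h10)
    positivity

end Pool.Agent.N733.DG
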