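import Mathlib
import Pool.Agent.N733.DG.B
import Pool.Agent.Y877.SxN

set_option autoImplicit false

/-! Dense sets of primes: the second moment of the sifted counts (helper733). -/

namespace Pool.Agent.N733.DG

open Finset Pool.Agent.Y877.SX Pool.Agent.H373R2.T7

lemma var (S Gs : Finset ℕ) (P : ℕ → ℕ → Prop) [∀ s g, Decidable (P s g)] (V η T r m G : ℝ) (F : ℕ → ℕ → ℝ) (hV0 : 0 < V) (hV : V ≤ 1)
    (hm : (S.card : ℝ) = m) (hG : (Gs.card : ℝ) = G) (hr : 0 ≤ r)
    (h1 : ∀ s ∈ S, G * V - r ≤ ((Gs.filter (fun g => P s g)).card : ℝ))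
    (h2 : ∀ s ∈ S, ∀ t ∈ S.erase s, ((Gs.filter (fun g => P s g ∧ P t g)).card : ℝ) ≤ G * (V ^ 2 * F s t) + r)
    (h3 : ∀ s ∈ S, ∑ t ∈ S.erase s, F s t ≤ m + η * T) :
    ∑ g ∈ Gs, (((S.filter (fun s => P s g)).card : ℝ) - m * V) ^ 2 ≤ η * (G * V ^ 2 * m * T) + m * G + 3 * (m ^ 2 * r) := by
  set i : ℕ → ℕ → ℝ := fun s g => if P s g then 1 else 0 with hi
  set X : ℕ → ℝ := fun g => ∑ s ∈ S, i s g with hX
  have hm0 : 0 ≤ m := by rw [← hm]; exact Nat.cast_nonneg _
  have hG0 : 0 ≤ G := by rw [← hG]; exact Nat.cast_nonneg _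
  have hXc : ∀ g, X g = ((S.filter (fun s => P s g)).card : ℝ) := by
    intro g
    rw [hX, hi]
    simp only
    rw [← sum_filter, sum_const, nsmul_eq_mul, mul_one]
  have hc1 : ∀ s, ∑ g ∈ Gs, i s g = ((Gs.filter (fun g => P s g)).card : ℝ) := by
    intro s
    rw [hi]
    simp only
    rw [← sum_filter, sum_const, nsmul_eq_mul, mul_one]
  have hc2 : ∀ s t, ∑ g ∈ Gs, i s g * i t g = ((Gs.filter (fun g => P s g ∧ P t g)).card : ℝ) := by
    intro s t
    have : ∀ g, i s g * i t g = if P s g ∧ P t g then (1 : ℝ) else 0 := by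
      intro g
      rw [hi]
      by_cases ha : P s g <;> by_cases hb : P t g <;> simp [ha, hb]
    simp_rw [this]
    rw [← sum_filter, sum_const, nsmul_eq_mul, mul_one]
  have hS1 : m * (G * V - r) ≤ ∑ g ∈ Gs, X g := by
    rw [hX, sum_comm]
    have : ∑ _s ∈ S, (G * V - r) ≤ ∑ s ∈ S, ∑ g ∈ Gs, i s g := by
      apply sum_le_sum
      intro s hs
      rw [hc1]
      exact h1 s hs
    rwa [sum_const, nsmul_eq_mul, hm] at this
  have hS2 : ∑ g ∈ Gs, X g ^ 2 ≤ m * (G + (G * V ^ 2 * (m + η * T) + m * r)) := by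
    have e1 : ∑ g ∈ Gs, X g ^ 2 = ∑ s ∈ S, ∑ t ∈ S, ∑ g ∈ Gs, i s g * i t g := by
      have : ∀ g, X g ^ 2 = ∑ s ∈ S, ∑ t ∈ S, i s g * i t g := by
        intro g
        rw [hX, sq, sum_mul_sum]
      simp_rw [this]
      rw [sum_comm]
      apply sum_congr rfl
      intro s _
      rw [sum_comm]
    rw [e1]
    have : ∀ s ∈ S, ∑ t ∈ S, ∑ g ∈ Gs, i s g * i t g ≤ G + (G * V ^ 2 * (m + η * T) + m * r) := by
      intro s hs
      rw [← add_sum_erase S _ hs]
      apply add_le_add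
      · rw [hc2, ← hG]
        exact_mod_cast card_filter_le _ _
      · calc ∑ t ∈ S.erase s, ∑ g ∈ Gs, i s g * i t g ≤ ∑ t ∈ S.erase s, (G * (V ^ 2 * F s t) + r) := by
              apply sum_le_sum
              intro t ht
              rw [hc2]
              exact h2 s hs t ht
          _ = G * V ^ 2 * ∑ t ∈ S.erase s, F s t + ((S.erase s).card : ℝ) * r := by
              rw [sum_add_distrib, sum_const, nsmul_eq_mul, mul_sum]
              congr 1
              apply sum_congr rfl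
              intro t _
              ring
          _ ≤ G * V ^ 2 * (m + η * T) + m * r := by
              have : ((S.erase s).card : ℝ) ≤ m := by
                rw [← hm]
                exact_mod_cast card_le_card (erase_subset _ _)
              have := h3 s hs
              gcongr
    calc ∑ s ∈ S, ∑ t ∈ S, ∑ g ∈ Gs, i s g * i t g ≤ ∑ _s ∈ S, (G + (G * V ^ 2 * (m + η * T) + m * r)) := sum_le_sum this
      _ = _ := by rw [sum_const, nsmul_eq_mul, hm]
  have e : ∑ g ∈ Gs, (X g - m * V) ^ 2 = ∑ g ∈ Gs, X g ^ 2 - 2 * (m * V) * ∑ g ∈ Gs, X g + G * (m * V) ^ 2 := by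
    rw [← hG, mul_sum, ← nsmul_eq_mul, ← sum_const, ← sum_sub_distrib, ← sum_add_distrib]
    apply sum_congr rfl
    intro g _
    ring
  have h5 : 2 * (m * V) * (m * (G * V - r)) ≤ 2 * (m * V) * ∑ g ∈ Gs, X g := by
    apply mul_le_mul_of_nonneg_left hS1
    positivity
  have h6 : m * V * (m * r) ≤ m * (m * r) := by
    have : m * V ≤ m := by nlinarith
    apply mul_le_mul_of_nonneg_right this
    positivity
  simp_rw [← hXc]
  rw [e]
  nlinarith

theorem model (δ ε : ℝ) (hδ : 0 < δ) (hε : 0 < ε) : ∃ y0 : ℕ, 4 ≤ y0 ∧ ∀ y : ℕ, y0 ≤ y → ∀ E : ℕ,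
    ∃ x0 : ℕ, ∀ x : ℕ, x0 ≤ x → ∀ z : ℕ, y ≤ z → (z : ℝ) ≤ Real.log x ^ E →
    ∀ S : Finset ℕ, S ⊆ PX x → ∀ M : ℕ, (∀ p ∈ mid y z, ¬ p ∣ M) → ∀ v : ℕ → ℕ,
    (∀ s ∈ S, ∀ t ∈ S, ∀ p w : ℕ, p ∣ v s + w → p ∣ v t + w → p ∣ Nat.dist s t) →
    ∀ G : ℕ, √(x : ℝ) ≤ G →
    (((Icc 1 G).filter (fun g => δ * (x / Real.log x) * Vm y z <
      |((S.filter (fun s => ∀ p ∈ mid y z, ¬ p ∣ v s + M * g)).card : ℝ) - S.card * Vm y z|)).card : ℝ) ≤ ε * G := by
  obtain ⟨η, hη⟩ : ∃ η : ℝ, η = ε * δ ^ 2 / 200 := ⟨_, rfl⟩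
  have hη0 : 0 < η := by rw [hη]; positivity
  obtain ⟨y0, hy0⟩ := exists_nat_ge (800 / η)
  refine ⟨max y0 4, le_max_right _ _, fun y hy E => ?_⟩
  have hy4 : 4 ≤ y := le_trans (le_max_right _ _) hy
  have hyη : 800 / η ≤ (y : ℝ) := hy0.trans (by exact_mod_cast le_trans (le_max_left _ _) hy)
  have hyr : (4 : ℝ) ≤ y := by exact_mod_cast hy4
  obtain ⟨G1, hG1⟩ := single_cnt (2 * E) 4
  obtain ⟨G2, hG2⟩ := pair_cnt (2 * E) 4
  obtain ⟨x1, hx1⟩ := Vz_inv_small E
  obtain ⟨x2, hx2⟩ := ev_L' (max 4 (max (16 * 6000 * 3 / (ε / 4 * δ ^ 2)) 1))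
  obtain ⟨x3, hx3⟩ := ev_log' (E + 1) (max 1 (4 / η))
  obtain ⟨x4, hx4⟩ := ev_log' 3 (max 1 (44 / (ε / 4 * δ ^ 2)))
  refine ⟨max (max ((G1 + G2) ^ 2) x1) (max x2 (max x3 (max x4 16))), fun x hx z hyz hz S hS M hM v hv G hG => ?_⟩
  have b1 : (G1 + G2) ^ 2 ≤ x := le_trans (le_trans (le_max_left _ _) (le_max_left _ _)) hx
  have b2 : x1 ≤ x := le_trans (le_trans (le_max_right _ _) (le_max_left _ _)) hx
  have d2 := le_trans (le_max_right _ _) hx
  have b3 : x2 ≤ x := le_trans (le_max_left _ _) d2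
  have d3 := le_trans (le_max_right _ _) d2
  have b4 : x3 ≤ x := le_trans (le_max_left _ _) d3
  have d4 := le_trans (le_max_right _ _) d3
  have b5 : x4 ≤ x := le_trans (le_max_left _ _) d4
  have b6 : 16 ≤ x := le_trans (le_max_right _ _) d4
  have hL := hx2 x b3
  have hc3 := hx3 x b4
  have hc4 := hx4 x b5
  obtain ⟨L, hLd⟩ : ∃ L, L = Real.log x := ⟨_, rfl⟩
  rw [← hLd] at hL hc3 hc4 hz ⊢
  have hL4 : 4 ≤ L := (le_max_left _ _).trans hL
  have hLb : 16 * 6000 * 3 / (ε / 4 * δ ^ 2) ≤ L := ((le_max_left _ _).trans (le_max_right _ _)).trans hL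
  have hL0 : 0 < L := by linarith
  have hxr : (16 : ℝ) ≤ x := by exact_mod_cast b6
  have hx0 : (0 : ℝ) < x := by linarith
  have hs1 : 1 ≤ √(x : ℝ) := by rw [← Real.sqrt_one]; exact Real.sqrt_le_sqrt (by linarith)
  have hGr : (1 : ℝ) ≤ G := hs1.trans hG
  have hG0 : (0 : ℝ) < G := by linarith
  have hz1 : 1 ≤ z := by omega
  have hGG : G1 + G2 ≤ G := by
    have h1 : ((G1 + G2 : ℕ) : ℝ) ≤ √(x : ℝ) := by
      apply Real.le_sqrt_of_sq_le
      exact_mod_cast b1
    exact_mod_cast h1.trans hG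
  have hlG : L / 2 ≤ Real.log G := by
    have := Real.log_le_log (by positivity) hG
    rw [Real.log_sqrt hx0.le] at this
    rw [hLd]
    exact this
  have hlG2 : 2 ≤ Real.log G := by linarith
  have hlG0 : 0 < Real.log G := by linarith
  have hzG : (z : ℝ) ≤ Real.log G ^ (2 * E) := by
    refine hz.trans ?_
    rw [pow_mul]
    apply pow_le_pow_left₀ hL0.le
    calc L ≤ 2 * Real.log G := by linarith
      _ ≤ Real.log G * Real.log G := mul_le_mul_of_nonneg_right hlG2 hlG0.le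
      _ = _ := (sq _).symm
  obtain ⟨V, hV⟩ : ∃ V, V = Vm y z := ⟨_, rfl⟩
  have hV0 : 0 < V := by rw [hV]; exact Vm_pos y z
  have hV1 : V ≤ 1 := by rw [hV]; exact Vm_le y z
  have hVL : 1 / L ≤ V := by
    have h1 := hx1 x b2 z hz1 (by rw [← hLd]; exact hz)
    have h2 : Vz z ≤ V := by
      rw [hV, Vz_split y z hyz]
      exact mul_le_of_le_one_left (Vm_pos y z).le (Vz_le_one y)
    have h3 : L⁻¹ ≤ Vz z := by
      rw [inv_le_comm₀ hL0 (Vz_pos z), hLd]
      exact h1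
    rw [one_div]
    exact h3.trans h2
  obtain ⟨T, hT⟩ : ∃ T : ℝ, T = x / L := ⟨_, rfl⟩
  have hT0 : 0 < T := by rw [hT]; positivity
  obtain ⟨m, hm⟩ : ∃ m : ℝ, m = (S.card : ℝ) := ⟨_, rfl⟩
  have hm0 : 0 ≤ m := by rw [hm]; exact Nat.cast_nonneg _
  have hmT : m ≤ 44 * T := by
    have h1 := Pool.Agent.H692R2.USS.t1_brun_titchmarsh 0 1 (x + 1) (by omega) le_rfl
    have h2 : S.card ≤ ((range (x + 1)).filter (fun k => (0 + k * 1).Prime)).card := by
      apply card_le_card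
      intro t ht
      have := hS ht
      rw [PX, mem_filter, mem_Icc] at this
      rw [mem_filter, mem_range, zero_add, mul_one]
      exact ⟨by omega, this.2⟩
    rw [Nat.totient_one] at h1
    have h3 : m ≤ 22 * (((1 : ℕ) : ℝ) / ((1 : ℕ) : ℝ)) * ((x + 1 : ℕ) : ℝ) / Real.log ((x + 1 : ℕ) : ℝ) := by
      rw [hm]
      exact le_trans (by exact_mod_cast h2) h1
    refine h3.trans ?_
    rw [hT]
    push_cast
    have h4 : L ≤ Real.log ((x : ℝ) + 1) := by
      rw [hLd]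
      exact Real.log_le_log hx0 (by linarith)
    calc 22 * ((1 : ℝ) / 1) * (x + 1) / Real.log (x + 1) ≤ 22 * ((1 : ℝ) / 1) * (2 * x) / L := by
          apply div_le_div₀ (by positivity) _ hL0 h4
          linarith
      _ = 44 * (x / L) := by ring
  obtain ⟨r, hr⟩ : ∃ r : ℝ, r = G / Real.log G ^ 4 := ⟨_, rfl⟩
  have hr0 : 0 ≤ r := by rw [hr]; positivity
  have hvar := var S (Icc 1 G) (fun s g => ∀ p ∈ mid y z, ¬ p ∣ v s + M * g) V η T r m G (fun s t => fd y z (Nat.dist s t))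
    hV0 hV1 hm.symm (by rw [Nat.card_Icc, Nat.add_sub_cancel]) hr0
    (by
      intro s _
      rw [hr, hV]
      exact hG1 G (by omega) z hz1 hzG y M (v s) hM)
    (by
      intro s hs t ht
      rw [hr, hV]
      exact hG2 G (by omega) z hz1 hzG y M (v s) (v t) _ hM (fun p _ g h1 h2 => hv s hs t (mem_of_mem_erase ht) p (M * g) h1 h2))
    (by
      intro s hs
      have hsx := hS hs
      rw [PX, mem_filter, mem_Icc] at hsx
      have h1 := fd_primes_raw x y z s b6 hsx.1.1 hsx.1.2 hy4 hyz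
      rw [← hLd, ← hT] at h1
      have h2 : ∑ t ∈ S.erase s, (fd y z (Nat.dist s t) - 1) ≤ ∑ t ∈ (PX x).erase s, (fd y z (Nat.dist s t) - 1) := by
        apply sum_le_sum_of_subset_of_nonneg (erase_subset_erase s hS)
        intro t _ _
        have := fd_one y z (Nat.dist s t)
        linarith
      rw [sum_sub_distrib, sum_const, nsmul_eq_mul, mul_one] at h2
      have h3 : ((S.erase s).card : ℝ) ≤ m := by
        rw [hm]
        exact_mod_cast card_le_card (erase_subset _ _)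
      have h4 : 88 * T * (4 / y) ≤ η / 2 * T := by
        have h5 : 88 * (4 / (y : ℝ)) ≤ η / 2 := by
          rw [div_le_iff₀ hη0] at hyη
          rw [mul_div_assoc', div_le_iff₀ (by linarith)]
          linarith
        calc 88 * T * (4 / y) = 88 * (4 / (y : ℝ)) * T := by ring
          _ ≤ η / 2 * T := mul_le_mul_of_nonneg_right h5 hT0.le
      have h6 : 2 * √(x : ℝ) * z ≤ η / 2 * T := by
        have h7 : 4 / η * L ^ (E + 1) ≤ √x := by
          refine le_trans ?_ hc3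
          exact mul_le_mul_of_nonneg_right (le_max_right _ _) (by positivity)
        have h8 : √(x : ℝ) * √x = x := Real.mul_self_sqrt hx0.le
        rw [hT, mul_div_assoc', le_div_iff₀ hL0]
        have h9 : 4 * L ^ (E + 1) ≤ η * √x := by
          rw [div_mul_eq_mul_div, div_le_iff₀ hη0] at h7
          linarith
        calc 2 * √(x : ℝ) * z * L ≤ 2 * √(x : ℝ) * L ^ E * L := by gcongr
          _ = √(x : ℝ) * (4 * L ^ (E + 1)) / 2 := by rw [pow_succ]; ring
          _ ≤ √(x : ℝ) * (η * √x) / 2 := by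
              have := mul_le_mul_of_nonneg_left h9 (Real.sqrt_nonneg (x : ℝ))
              linarith
          _ = η / 2 * (√(x : ℝ) * √x) := by ring
          _ = η / 2 * x := by rw [h8]
      linarith)
  obtain ⟨Bd, hBd⟩ : ∃ Bd, Bd = (Icc 1 G).filter (fun g => δ * T * V <
      |((S.filter (fun s => ∀ p ∈ mid y z, ¬ p ∣ v s + M * g)).card : ℝ) - m * V|) := ⟨_, rfl⟩
  have hcheb : (Bd.card : ℝ) * (δ * T * V) ^ 2 ≤ η * (G * V ^ 2 * m * T) + m * G + 3 * (m ^ 2 * r) := by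
    refine le_trans ?_ hvar
    calc (Bd.card : ℝ) * (δ * T * V) ^ 2 = ∑ _g ∈ Bd, (δ * T * V) ^ 2 := by rw [sum_const, nsmul_eq_mul]
      _ ≤ ∑ g ∈ Bd, (((S.filter (fun s => ∀ p ∈ mid y z, ¬ p ∣ v s + M * g)).card : ℝ) - m * V) ^ 2 := by
          apply sum_le_sum
          intro g hg
          rw [hBd, mem_filter] at hg
          rw [← sq_abs (_ - m * V)]
          exact pow_le_pow_left₀ (by positivity) hg.2.le 2
      _ ≤ ∑ g ∈ Icc 1 G, (((S.filter (fun s => ∀ p ∈ mid y z, ¬ p ∣ v s + M * g)).card : ℝ) - m * V) ^ 2 := by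
          rw [hBd]
          apply sum_le_sum_of_subset_of_nonneg (filter_subset _ _)
          intro _ _ _
          exact sq_nonneg _
  have goal : (Bd.card : ℝ) ≤ ε * G := by
    have hD : 0 < (δ * T * V) ^ 2 := by positivity
    refine le_of_mul_le_mul_right (hcheb.trans ?_) hD
    have t1 : η * (G * V ^ 2 * m * T) ≤ ε / 4 * G * (δ * T * V) ^ 2 := by
      calc η * (G * V ^ 2 * m * T) ≤ η * (G * V ^ 2 * (44 * T) * T) := by gcongr
        _ = (44 * η) * (G * V ^ 2 * T ^ 2) := by ring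
        _ ≤ (ε / 4 * δ ^ 2) * (G * V ^ 2 * T ^ 2) := by
            apply mul_le_mul_of_nonneg_right _ (by positivity)
            rw [hη]
            have : 0 < ε * δ ^ 2 := by positivity
            linarith
        _ = _ := by ring
    have hTV : 44 ≤ ε / 4 * δ ^ 2 * (T * V ^ 2) := by
      have h1 : T * V ^ 2 ≥ x / L ^ 3 := by
        rw [hT]
        calc x / L * V ^ 2 ≥ x / L * (1 / L) ^ 2 := by
              apply mul_le_mul_of_nonneg_left _ (by positivity)
              exact pow_le_pow_left₀ (by positivity) hVL 2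
          _ = x / L ^ 3 := by field_simp
      have h2 : 44 / (ε / 4 * δ ^ 2) * L ^ 3 ≤ x := by
        have h3 : 44 / (ε / 4 * δ ^ 2) * L ^ 3 ≤ √x := by
          refine le_trans ?_ hc4
          exact mul_le_mul_of_nonneg_right (le_max_right _ _) (by positivity)
        have h4 : √(x : ℝ) ≤ x := by
          have h8 : √(x : ℝ) * √x = x := Real.mul_self_sqrt hx0.le
          nlinarith
        linarith
      have h5 : 44 / (ε / 4 * δ ^ 2) ≤ x / L ^ 3 := by
        rw [le_div_iff₀ (by positivity)]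
        exact h2
      rw [div_le_iff₀ (by positivity)] at h5
      calc (44 : ℝ) ≤ x / L ^ 3 * (ε / 4 * δ ^ 2) := h5
        _ ≤ (T * V ^ 2) * (ε / 4 * δ ^ 2) := mul_le_mul_of_nonneg_right h1 (by positivity)
        _ = _ := by ring
    have t2 : m * G ≤ ε / 4 * G * (δ * T * V) ^ 2 := by
      calc m * G ≤ (44 * T) * G := by gcongr
        _ = 44 * (T * G) := by ring
        _ ≤ (ε / 4 * δ ^ 2 * (T * V ^ 2)) * (T * G) := mul_le_mul_of_nonneg_right hTV (by positivity)
        _ = _ := by ring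
    have t3 : 3 * (m ^ 2 * r) ≤ ε / 4 * G * (δ * T * V) ^ 2 := by
      have h1 : r ≤ 16 * G / L ^ 4 := by
        rw [hr]
        have h2 : (L / 2) ^ 4 ≤ Real.log G ^ 4 := pow_le_pow_left₀ (by positivity) hlG 4
        calc (G : ℝ) / Real.log G ^ 4 ≤ G / (L / 2) ^ 4 := div_le_div_of_nonneg_left hG0.le (by positivity) h2
          _ = 16 * G / L ^ 4 := by field_simp; ring
      have h3 : 1 ≤ L ^ 2 * V ^ 2 := by
        have : 1 ≤ L * V := by
          rw [div_le_iff₀ hL0] at hVL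
          linarith
        calc (1 : ℝ) ≤ (L * V) ^ 2 := one_le_pow₀ this
          _ = _ := by ring
      have h4 : 16 * 6000 * 3 ≤ ε / 4 * δ ^ 2 * L := by
        rw [div_le_iff₀ (by positivity)] at hLb
        linarith
      have h5 : L ≤ L ^ 2 := by nlinarith
      calc 3 * (m ^ 2 * r) ≤ 3 * ((44 * T) ^ 2 * (16 * G / L ^ 4)) := by gcongr
        _ = (16 * 1936 * 3) * (T ^ 2 * G / L ^ 4) := by ring
        _ ≤ (ε / 4 * δ ^ 2 * L ^ 2) * (T ^ 2 * G / L ^ 4) := by
            apply mul_le_mul_of_nonneg_right _ (by positivity)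
            have : ε / 4 * δ ^ 2 * L ≤ ε / 4 * δ ^ 2 * L ^ 2 := mul_le_mul_of_nonneg_left h5 (by positivity)
            linarith
        _ = (ε / 4 * δ ^ 2 * (T ^ 2 * G)) * (1 / L ^ 2) := by field_simp
        _ ≤ (ε / 4 * δ ^ 2 * (T ^ 2 * G)) * V ^ 2 := by
            apply mul_le_mul_of_nonneg_left _ (by positivity)
            rw [div_le_iff₀ (by positivity)]
            linarith
        _ = _ := by ring
    have : 0 ≤ ε / 4 * G * (δ * T * V) ^ 2 := by positivity
    calc η * (G * V ^ 2 * m * T) + m * G + 3 * (m ^ 2 * r) ≤ 3 * (ε / 4 * G * (δ * T * V) ^ 2) := by linarith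
      _ ≤ ε * G * (δ * T * V) ^ 2 := by linarith
  rw [hBd] at goal
  rw [← hV, ← hm, ← hT]
  exact goal

end Pool.Agent.N733.DG
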