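import Mathlib
import Pool.Agent.N733.DG.C
import Pool.Agent.Y877.SxN

set_option autoImplicit false

/-! Dense sets of primes: the bilinear step and the pointwise comparison (helper733). -/

namespace Pool.Agent.N733.DG

open Finset Pool.Agent.Y877.SX Pool.Agent.H373R2.T7 Polynomial

open ArithmeticFunction in
lemma bil_abs (x z : ℕ) (R : ℝ)
    (hbil : ∀ Gf c : ℕ → ℂ, (∀ a, ‖Gf a‖ ≤ 1) → (∀ m, ‖c m‖ ≤ 1) →
      ‖∑ a ∈ Icc 1 (2 * x), ∑ m ∈ Icc 1 x, Gf a * c m *
      ((lamI (a + (-1) * (X ^ 1 : ℤ[X]).eval (m : ℤ)) - lamzI z (a + (-1) * (X ^ 1 : ℤ[X]).eval (m : ℤ)) : ℝ) : ℂ)‖ ≤ R)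
    (S H : Finset ℕ) (hS : S ⊆ Icc 1 x) (hH : ∀ h ∈ H, x < h ∧ h ≤ 2 * x) :
    |∑ h ∈ H, ∑ s ∈ S, (vonMangoldt (h - s) - lamz z (h - s))| ≤ R := by
  classical
  have h1 := hbil (fun a => if a ∈ H then 1 else 0) (fun m => if m ∈ S then 1 else 0) (by
    intro a
    split_ifs <;> simp) (by
    intro a
    split_ifs <;> simp)
  have e1 : ∑ a ∈ Icc 1 (2 * x), ∑ m ∈ Icc 1 x, (if a ∈ H then (1 : ℂ) else 0) * (if m ∈ S then (1 : ℂ) else 0) *
      ((lamI (a + (-1) * (X ^ 1 : ℤ[X]).eval (m : ℤ)) - lamzI z (a + (-1) * (X ^ 1 : ℤ[X]).eval (m : ℤ)) : ℝ) : ℂ) =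
      ((∑ h ∈ H, ∑ s ∈ S, (vonMangoldt (h - s) - lamz z (h - s)) : ℝ) : ℂ) := by
    have f1 : (Icc 1 (2 * x)).filter (fun a => a ∈ H) = H := by
      ext a
      rw [mem_filter, mem_Icc]
      refine ⟨fun h => h.2, fun h => ⟨?_, h⟩⟩
      have := hH a h
      omega
    have f2 : (Icc 1 x).filter (fun a => a ∈ S) = S := by
      ext a
      rw [mem_filter]
      exact ⟨fun h => h.2, fun h => ⟨hS h, h⟩⟩
    rw [Complex.ofReal_sum]
    conv_rhs => rw [← f1, sum_filter]
    apply sum_congr rfl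
    intro a ha
    rw [mem_Icc] at ha
    by_cases haH : a ∈ H
    · rw [if_pos haH, if_pos haH, Complex.ofReal_sum]
      conv_rhs => rw [← f2, sum_filter]
      apply sum_congr rfl
      intro m hm
      by_cases hmS : m ∈ S
      · rw [if_pos hmS, if_pos hmS, one_mul, one_mul]
        congr 1
        rw [eval_pow, eval_X, pow_one]
        have h3 : m ≤ x := (mem_Icc.1 hm).2
        have h4 := hH a haH
        have e2 : (a : ℤ) + (-1) * (m : ℤ) = ((a - m : ℕ) : ℤ) := by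
          push_cast [Nat.cast_sub (by omega : m ≤ a)]
          ring
        rw [e2]
        unfold lamI lamzI
        rw [if_pos (by exact_mod_cast (by omega : 1 ≤ a - m)), if_pos (by exact_mod_cast (by omega : 1 ≤ a - m)), Int.toNat_natCast]
      · rw [if_neg hmS, if_neg hmS, mul_zero, zero_mul]
    · rw [if_neg haH, if_neg haH]
      apply sum_eq_zero
      intro m _
      rw [zero_mul, zero_mul]
  rw [e1, Complex.norm_real, Real.norm_eq_abs] at h1
  exact h1

lemma bil_count (H : Finset ℕ) (F : ℕ → ℝ) (w R : ℝ) (hF : ∀ H' ⊆ H, |∑ h ∈ H', F h| ≤ R) (hw : ∀ h ∈ H, w ≤ |F h|) :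
    H.card * w ≤ 2 * R := by
  classical
  have h1 := hF (H.filter (fun h => 0 ≤ F h)) (filter_subset _ _)
  have h2 := hF (H.filter (fun h => ¬ 0 ≤ F h)) (filter_subset _ _)
  have h3 : ∑ h ∈ H, |F h| = ∑ h ∈ H.filter (fun h => 0 ≤ F h), F h - ∑ h ∈ H.filter (fun h => ¬ 0 ≤ F h), F h := by
    rw [← sum_filter_add_sum_filter_not H (fun h => 0 ≤ F h), sub_eq_add_neg, ← sum_neg_distrib]
    congr 1
    · apply sum_congr rfl
      intro h hh
      exact abs_of_nonneg (mem_filter.1 hh).2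
    · apply sum_congr rfl
      intro h hh
      have := (mem_filter.1 hh).2
      push Not at this
      exact abs_of_neg this
  have h4 : ∑ _h ∈ H, w ≤ ∑ h ∈ H, |F h| := sum_le_sum hw
  rw [sum_const, nsmul_eq_mul] at h4
  have h5 := (abs_le.1 h1).2
  have h6 := (abs_le.1 h2).1
  linarith

open ArithmeticFunction in
lemma pointwise (x n : ℕ) (S : Finset ℕ) (δ L T Vi m : ℝ) (hx : 1 ≤ x) (hL : L = Real.log x) (hL0 : 0 < L) (hS : ∀ s ∈ S, 1 ≤ s ∧ s ≤ x)
    (hn : x < n) (hn2 : n ≤ 2 * x) (hm : (S.card : ℝ) = m) (hT : T = x / L) (hm44 : m ≤ 44 * T) (hVi : 1 ≤ Vi)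
    (hδ : 0 < δ) (hδ1 : δ ≤ 1 / 2) (hL1 : 44 ≤ δ * L) (hu : (1 - δ) * L ≤ Real.log (δ * x / L ^ 2)) (hu0 : 1 ≤ δ * x / L ^ 2)
    (hTn : |∑ s ∈ S, vonMangoldt (n - s) - m * Vi| ≤ 2 * δ * T * Vi)
    (hPP : ∑ s ∈ S, (if (n - s).Prime then (0 : ℝ) else vonMangoldt (n - s)) ≤ δ * T) :
    |((S.filter (fun s => (n - s).Prime)).card : ℝ) - m * Vi / L| ≤ 100 * δ * T * Vi / L := by
  obtain ⟨c, hc⟩ : ∃ c : ℝ, c = ((S.filter (fun s => (n - s).Prime)).card : ℝ) := ⟨_, rfl⟩
  obtain ⟨Q, hQ⟩ : ∃ Q : ℝ, Q = ∑ s ∈ S, vonMangoldt (n - s) := ⟨_, rfl⟩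
  have hxr : (1 : ℝ) ≤ x := by exact_mod_cast hx
  have hx0 : (0 : ℝ) < x := by linarith
  have hT0 : 0 < T := by rw [hT]; positivity
  have hm0 : 0 ≤ m := by rw [← hm]; exact Nat.cast_nonneg _
  have hc0 : 0 ≤ c := by rw [hc]; exact Nat.cast_nonneg _
  rw [← hQ] at hTn
  rw [← hc]
  have hTV := abs_le.1 hTn
  have h2x : Real.log (2 * x) ≤ L + 1 := by
    rw [Real.log_mul (by norm_num) hx0.ne', hL]
    have := Real.log_two_lt_d9
    linarith
  -- upper bound for Q
  have q1 : Q ≤ c * (L + 1) + δ * T := by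
    refine le_trans ?_ (add_le_add_right hPP _)
    rw [hQ, hc, card_eq_sum_ones, Nat.cast_sum, sum_mul, sum_filter, ← sum_add_distrib]
    apply sum_le_sum
    intro s hs
    by_cases hp : (n - s).Prime
    · rw [if_pos hp, if_pos hp, vonMangoldt_apply_prime hp, Nat.cast_one, one_mul, add_zero]
      refine le_trans (Real.log_le_log (by exact_mod_cast hp.pos) ?_) h2x
      have h4 : n - s ≤ 2 * x := by omega
      exact_mod_cast h4
    · rw [if_neg hp, if_neg hp, zero_add]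
  -- lower bound for Q
  have q2 : (c - δ * x / L ^ 2) * ((1 - δ) * L) ≤ Q := by
    obtain ⟨u, hud⟩ : ∃ u : ℝ, u = δ * x / L ^ 2 := ⟨_, rfl⟩
    rw [← hud] at hu hu0 ⊢
    have h1 : ((S.filter (fun s => (n - s).Prime ∧ ¬ (u < ((n - s : ℕ) : ℝ)))).card : ℝ) ≤ u := by
      have h2 : (S.filter (fun s => (n - s).Prime ∧ ¬ (u < ((n - s : ℕ) : ℝ)))).card ≤ (Icc 1 ⌊u⌋₊).card := by
        apply card_le_card_of_injOn (fun s => n - s)
        · intro s hs
          rw [mem_coe, mem_filter] at hs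
          rw [mem_coe, mem_Icc]
          have h3 := hs.2.2
          push Not at h3
          exact ⟨hs.2.1.one_le, Nat.le_floor h3⟩
        · intro s hs t ht hst
          rw [mem_coe, mem_filter] at hs ht
          have := hS s hs.1
          have := hS t ht.1
          simp only at hst
          omega
      rw [Nat.card_Icc, Nat.add_sub_cancel] at h2
      exact le_trans (by exact_mod_cast h2) (Nat.floor_le (by linarith))
    have h5 : c = ((S.filter (fun s => (n - s).Prime ∧ (u < ((n - s : ℕ) : ℝ)))).card : ℝ) +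
        ((S.filter (fun s => (n - s).Prime ∧ ¬ (u < ((n - s : ℕ) : ℝ)))).card : ℝ) := by
      rw [hc, ← Nat.cast_add, ← filter_filter, ← filter_filter, card_filter_add_card_filter_not]
    have h6 : ((S.filter (fun s => (n - s).Prime ∧ (u < ((n - s : ℕ) : ℝ)))).card : ℝ) * ((1 - δ) * L) ≤ Q := by
      rw [hQ, card_eq_sum_ones, Nat.cast_sum, sum_mul, sum_filter]
      apply sum_le_sum
      intro s hs
      split_ifs with h
      · rw [Nat.cast_one, one_mul, vonMangoldt_apply_prime h.1]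
        exact hu.trans (Real.log_le_log (by linarith) h.2.le)
      · exact vonMangoldt_nonneg
    refine le_trans ?_ h6
    apply mul_le_mul_of_nonneg_right _ (mul_nonneg (by linarith) hL0.le)
    linarith
  have hTL : δ * x / L ^ 2 = δ * (T / L) := by
    rw [hT]
    field_simp
  rw [hTL] at q2
  obtain ⟨t, ht⟩ : ∃ t : ℝ, t = T / L := ⟨_, rfl⟩
  have hTt : T = t * L := by rw [ht]; field_simp
  have ht0 : 0 < t := by rw [ht]; positivity
  rw [← ht] at q2
  rw [hTt] at q1 hTV hm44 ⊢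
  obtain ⟨k, hk⟩ : ∃ k : ℝ, k = m / L := ⟨_, rfl⟩
  have hmk : m = k * L := by rw [hk]; field_simp
  have hk0 : 0 ≤ k := by rw [hk]; positivity
  have hk44 : k ≤ 44 * t := by
    rw [hmk] at hm44
    exact le_of_mul_le_mul_right (by linarith) hL0
  rw [hmk] at hTV ⊢
  have e1 : k * L * Vi / L = k * Vi := by field_simp
  have e2 : 100 * δ * (t * L) * Vi / L = 100 * δ * t * Vi := by field_simp
  rw [e1, e2]
  have htδ : t ≤ t * Vi := le_mul_of_one_le_right ht0.le hVi
  have hVi0 : 0 < Vi := by linarith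
  rw [abs_le]
  constructor
  · -- c ≥ kVi - 100 δ t Vi
    -- k L Vi - 2 δ t L Vi ≤ c (L+1) + δ t L
    by_contra hcon
    push Not at hcon
    have g1 : c < k * Vi - 100 * δ * t * Vi := by linarith
    have g2 : c * (L + 1) ≤ (k * Vi - 100 * δ * t * Vi) * (L + 1) := mul_le_mul_of_nonneg_right g1.le (by linarith)
    have g3 : k * Vi ≤ 44 * t * Vi := mul_le_mul_of_nonneg_right hk44 hVi0.le
    have g4 : 44 * (t * Vi) ≤ δ * L * (t * Vi) := mul_le_mul_of_nonneg_right hL1 (by positivity)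
    have g5 : δ * t * L ≤ δ * L * (t * Vi) := by
      have : δ * L * t ≤ δ * L * (t * Vi) := mul_le_mul_of_nonneg_left htδ (by positivity)
      linarith
    have g6 : 0 < δ * L * (t * Vi) := by positivity
    have g7 : 0 < δ * (t * Vi) := by positivity
    nlinarith [hTV.1]
  · have g1 : (c - δ * t) * ((1 - δ) * L) ≤ (k * Vi + 2 * δ * t * Vi) * L := by
      have := hTV.2
      nlinarith
    have g2 : (c - δ * t) * (1 - δ) ≤ k * Vi + 2 * δ * t * Vi := by
      apply le_of_mul_le_mul_right _ hL0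
      linarith
    by_contra hcon
    push Not at hcon
    have g3 : k * Vi + 100 * δ * t * Vi < c := by linarith
    have g4 : (k * Vi + 100 * δ * t * Vi - δ * t) * (1 - δ) ≤ (c - δ * t) * (1 - δ) :=
      mul_le_mul_of_nonneg_right (by linarith) (by linarith)
    have g5 : k * Vi ≤ 44 * t * Vi := mul_le_mul_of_nonneg_right hk44 hVi0.le
    have g6 : δ * t ≤ δ * (t * Vi) := mul_le_mul_of_nonneg_left htδ hδ.le
    have g7 : 0 < δ * (t * Vi) := by positivity
    have g8 : δ * (k * Vi) ≤ δ * (44 * (t * Vi)) := mul_le_mul_of_nonneg_left (by linarith) hδ.le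
    have g9 : δ * (δ * (t * Vi)) ≤ 1 / 2 * (δ * (t * Vi)) := mul_le_mul_of_nonneg_right hδ1 g7.le
    nlinarith

end Pool.Agent.N733.DG
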