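import Mathlib
import Pool.Agent.N733.DG.D

set_option autoImplicit false

/-! Dense sets of primes: the number of representations as a sum with a prime (helper733). -/

namespace Pool.Agent.N733.DG

open Finset Pool.Agent.Y877.SX Pool.Agent.H373R2.T7 Polynomial

open ArithmeticFunction in
theorem core (δ : ℝ) (hδ : 0 < δ) (hδ1 : δ ≤ 1 / 2) : ∃ y0 : ℕ, 4 ≤ y0 ∧ ∀ y : ℕ, y0 ≤ y → ∀ M : ℕ, 1 ≤ M →
    (∀ p : ℕ, p.Prime → (p ∣ M ↔ p ≤ y)) → ∃ x0 : ℕ, ∀ x : ℕ, x0 ≤ x →
    ∀ S : Finset ℕ, S ⊆ PX x → (∀ s ∈ S, y < s) → ∀ g0 G : ℕ, x ≤ M * g0 → M * (g0 + G) ≤ 2 * x → x ≤ 2 * M * G →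
    (((Icc 1 G).filter (fun g => 100 * δ * (x / Real.log x) * (Vz y)⁻¹ / Real.log x <
      |((S.filter (fun s => (M * (g0 + g) - s).Prime)).card : ℝ) - S.card * (Vz y)⁻¹ / Real.log x|)).card : ℝ) ≤ 3 * δ * G := by
  obtain ⟨y0, hy04, hmod⟩ := model δ δ hδ hδ
  refine ⟨y0, hy04, fun y hy M hM1 hMp => ?_⟩
  have hdeg : (X ^ 1 : ℤ[X]).natDegree = 1 := natDegree_X_pow 1
  have hlead : (X ^ 1 : ℤ[X]).leadingCoeff = 1 := leadingCoeff_X_pow 1
  obtain ⟨B0, hB0⟩ := bil_lam (X ^ 1 : ℤ[X]) (by rw [hdeg]) (by rw [hlead]; norm_num) 2 (by norm_num) 2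
  obtain ⟨N1, hN1⟩ := hB0 (B0 + 3)
  obtain ⟨x1, hx1⟩ := hmod y hy (B0 + 3)
  obtain ⟨x2, hx2⟩ := ev_L' (max (max (44 / δ) (y + 2)) (max (8 * M / δ ^ 2) (2 * M)))
  obtain ⟨x3, hx3⟩ := ev_log' 2 (16 * M / δ ^ 2)
  obtain ⟨x4, hx4⟩ := ev_log' 2 (1 / δ)
  obtain ⟨x5, hx5⟩ := ev_log' 0 (2 * M)
  obtain ⟨x6, hx6⟩ : ∃ x6 : ℕ, ∀ x : ℕ, x6 ≤ x → (1 - δ) * Real.log x ≤ Real.log (δ * x / Real.log x ^ 2) := by
    have h1 : Filter.Tendsto (fun x : ℝ => Real.log x ^ (2 : ℝ) / x ^ δ) Filter.atTop (nhds 0) := by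
      have := isLittleO_log_rpow_rpow_atTop (s := δ) 2 hδ
      exact this.tendsto_div_nhds_zero
    have h2 := (h1.comp tendsto_natCast_atTop_atTop).eventually (gt_mem_nhds hδ)
    obtain ⟨n1, hn1⟩ := Filter.eventually_atTop.1 h2
    refine ⟨max n1 3, fun x hx => ?_⟩
    have hx3 : (3 : ℝ) ≤ x := by exact_mod_cast le_trans (le_max_right _ _) hx
    have hx0 : (0 : ℝ) < x := by linarith
    have hl : 0 < Real.log x := Real.log_pos (by linarith)
    have h3 := hn1 x (le_trans (le_max_left _ _) hx)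
    simp only [Function.comp] at h3
    rw [Real.rpow_two, div_lt_iff₀ (by positivity)] at h3
    rw [← Real.log_rpow hx0]
    apply Real.log_le_log (by positivity)
    rw [le_div_iff₀ (by positivity), Real.rpow_sub hx0, Real.rpow_one]
    calc (x : ℝ) / x ^ δ * Real.log x ^ 2 ≤ (x : ℝ) / x ^ δ * (δ * x ^ δ) := mul_le_mul_of_nonneg_left h3.le (by positivity)
      _ = δ * x := by field_simp
  refine ⟨max (max (max N1 x1) x6) (max x2 (max x3 (max x4 (max x5 16)))), fun x hx S hS hSy g0 G hg0 hg1 hg2 => ?_⟩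
  have d0 := le_trans (le_max_left _ _) hx
  have b1 : N1 ≤ x := le_trans (le_trans (le_max_left _ _) (le_max_left _ _)) d0
  have b2 : x1 ≤ x := le_trans (le_trans (le_max_right _ _) (le_max_left _ _)) d0
  have b2' : x6 ≤ x := le_trans (le_max_right _ _) d0
  have d1 := le_trans (le_max_right _ _) hx
  have b3 : x2 ≤ x := le_trans (le_max_left _ _) d1
  have d2 := le_trans (le_max_right _ _) d1
  have b4 : x3 ≤ x := le_trans (le_max_left _ _) d2
  have d3 := le_trans (le_max_right _ _) d2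
  have b5 : x4 ≤ x := le_trans (le_max_left _ _) d3
  have d4 := le_trans (le_max_right _ _) d3
  have b6 : x5 ≤ x := le_trans (le_max_left _ _) d4
  have b7 : 16 ≤ x := le_trans (le_max_right _ _) d4
  have hL := hx2 x b3
  have hc3 := hx3 x b4
  have hc4 := hx4 x b5
  have hc5 := hx5 x b6
  have hc6 := hx6 x b2'
  obtain ⟨L, hLd⟩ : ∃ L, L = Real.log x := ⟨_, rfl⟩
  rw [← hLd] at hL hc3 hc4 hc5 hc6 ⊢
  rw [pow_zero, mul_one] at hc5
  have hL1 : 44 / δ ≤ L := ((le_max_left _ _).trans (le_max_left _ _)).trans hL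
  have hL2 : (y : ℝ) + 2 ≤ L := ((le_max_right _ _).trans (le_max_left _ _)).trans hL
  have hL3 : 8 * M / δ ^ 2 ≤ L := ((le_max_left _ _).trans (le_max_right _ _)).trans hL
  have hL4 : 2 * (M : ℝ) ≤ L := ((le_max_right _ _).trans (le_max_right _ _)).trans hL
  have hMr : (1 : ℝ) ≤ M := by exact_mod_cast hM1
  have hL0 : 0 < L := by linarith
  have hL44 : 44 ≤ δ * L := by
    rw [div_le_iff₀ hδ] at hL1
    linarith
  have hL5 : 4 ≤ L := by nlinarith
  have hxr : (16 : ℝ) ≤ x := by exact_mod_cast b7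
  have hx0 : (0 : ℝ) < x := by linarith
  have hss : √(x : ℝ) * √x = x := Real.mul_self_sqrt hx0.le
  have hs0 : 0 < √(x : ℝ) := Real.sqrt_pos.2 hx0
  -- G
  have hGx : (x : ℝ) ≤ 2 * M * G := by exact_mod_cast hg2
  have hGs : √(x : ℝ) ≤ G := by
    have h1 : 2 * (M : ℝ) * G ≤ √x * G := mul_le_mul_of_nonneg_right hc5 (Nat.cast_nonneg _)
    have h2 : √(x : ℝ) * √x ≤ √x * G := by rw [hss]; linarith
    exact le_of_mul_le_mul_left h2 hs0
  have hG0 : (0 : ℝ) < G := by linarith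
  -- z
  obtain ⟨z, hzd⟩ : ∃ z, z = ⌈L ^ (B0 + 2)⌉₊ := ⟨_, rfl⟩
  have hz1 : L ^ (B0 + 2) ≤ z := by rw [hzd]; exact Nat.le_ceil _
  have hlN1 : 1 ≤ L := by linarith
  have hz1' : L ^ B0 ≤ z := (pow_le_pow_right₀ hlN1 (by omega)).trans hz1
  have hz2 : (z : ℝ) ≤ L ^ (B0 + 3) := by
    have h1 : (z : ℝ) < L ^ (B0 + 2) + 1 := by rw [hzd]; exact Nat.ceil_lt_add_one (by positivity)
    have h2 : L ^ (B0 + 3) = L ^ (B0 + 2) * L := pow_succ _ _
    have h3 : 1 ≤ L ^ (B0 + 2) := one_le_pow₀ hlN1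
    have h4 : L ^ (B0 + 2) * 2 ≤ L ^ (B0 + 2) * L := mul_le_mul_of_nonneg_left (by linarith) (by linarith)
    rw [h2]
    linarith
  have hyz : y ≤ z := by
    have h1 : L ^ 1 ≤ z := (pow_le_pow_right₀ hlN1 (by omega)).trans hz1
    have : (y : ℝ) ≤ z := by linarith
    exact_mod_cast this
  have hMq : ∀ p ∈ mid y z, ¬ p ∣ M := fun p hp hd => by
    have h1 := (hMp p (mem_mid.1 hp).2.2).1 hd
    have := (mem_mid.1 hp).1
    omega
  have hSx : S ⊆ Icc 1 x := hS.trans (filter_subset _ _)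
  have hSp : ∀ s ∈ S, s.Prime := fun s hs => (mem_filter.1 (hS hs)).2
  obtain ⟨m, hmd⟩ : ∃ m : ℝ, m = (S.card : ℝ) := ⟨_, rfl⟩
  have hm0 : 0 ≤ m := by rw [hmd]; exact Nat.cast_nonneg _
  obtain ⟨T, hT⟩ : ∃ T : ℝ, T = x / L := ⟨_, rfl⟩
  have hT0 : 0 < T := by rw [hT]; positivity
  have hmT : m ≤ 44 * T := by
    have h1 := Pool.Agent.H692R2.USS.t1_brun_titchmarsh 0 1 (x + 1) (by omega) le_rfl
    have h2 : S.card ≤ ((range (x + 1)).filter (fun k => (0 + k * 1).Prime)).card := by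
      apply card_le_card
      intro t ht
      have := hS ht
      rw [PX, mem_filter, mem_Icc] at this
      rw [mem_filter, mem_range, zero_add, mul_one]
      exact ⟨by omega, this.2⟩
    rw [Nat.totient_one] at h1
    have h3 : m ≤ 22 * (((1 : ℕ) : ℝ) / ((1 : ℕ) : ℝ)) * ((x + 1 : ℕ) : ℝ) / Real.log ((x + 1 : ℕ) : ℝ) := by
      rw [hmd]
      exact le_trans (by exact_mod_cast h2) h1
    refine h3.trans ?_
    rw [hT]
    push_cast
    have h4 : L ≤ Real.log ((x : ℝ) + 1) := by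
      rw [hLd]
      exact Real.log_le_log hx0 (by linarith)
    calc 22 * ((1 : ℝ) / 1) * (x + 1) / Real.log (x + 1) ≤ 22 * ((1 : ℝ) / 1) * (2 * x) / L := by
          apply div_le_div₀ (by positivity) _ hL0 h4
          linarith
      _ = 44 * (x / L) := by ring
  obtain ⟨Vi, hVi⟩ : ∃ Vi : ℝ, Vi = (Vz y)⁻¹ := ⟨_, rfl⟩
  have hVi1 : 1 ≤ Vi := by
    rw [hVi, one_le_inv₀ (Vz_pos y)]
    exact Vz_le_one y
  have hVm := Vm_pos y z
  have hVz := Vz_pos z
  have hsplit := Vz_split y z hyz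
  have hVV : (Vz z)⁻¹ * Vm y z = Vi := by
    rw [hsplit, mul_inv, mul_assoc, inv_mul_cancel₀ hVm.ne', mul_one, hVi]
  rw [← hmd, ← hVi]
  have hr := hx1 x b2 z hyz (by rw [← hLd]; exact hz2) S hS M hMq (fun s => M * g0 - s) (by
    intro s hs t ht p w h1 h2
    have hsx := (mem_Icc.1 (hSx hs)).2
    have htx := (mem_Icc.1 (hSx ht)).2
    rcases Nat.le_total s t with h | h
    · rw [Nat.dist_eq_sub_of_le h]
      have h3 := Nat.dvd_sub h1 h2
      have e : (M * g0 - s + w) - (M * g0 - t + w) = t - s := by omega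
      rwa [e] at h3
    · rw [Nat.dist_eq_sub_of_le_right h]
      have h3 := Nat.dvd_sub h2 h1
      have e : (M * g0 - t + w) - (M * g0 - s + w) = s - t := by omega
      rwa [e] at h3) G hGs
  rw [← hLd, ← hmd, ← hT] at hr
  have hb := fun Gf c => hN1 x b1 x (by rw [hdeg, pow_one]; omega) (by rw [hdeg, pow_one]; omega) (2 * x) le_rfl z (by rw [← hLd]; exact hz1')
    (by rw [← hLd]; exact hz2) (-1) (Or.inr rfl) Gf c
  rw [← hLd] at hb
  have hu0 : 1 ≤ δ * x / L ^ 2 := by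
    rw [le_div_iff₀ (by positivity), one_mul]
    rw [div_mul_eq_mul_div, one_mul, div_le_iff₀ hδ] at hc4
    have h1 : √(x : ℝ) ≤ x := by nlinarith
    calc L ^ 2 ≤ √x * δ := hc4
      _ ≤ x * δ := mul_le_mul_of_nonneg_right h1 hδ.le
      _ = _ := mul_comm _ _
  -- the sets
  obtain ⟨n, hn⟩ : ∃ n : ℕ → ℕ, n = fun g => M * (g0 + g) := ⟨_, rfl⟩
  have hinj : Function.Injective n := by
    intro a b hab
    rw [hn] at hab
    simp only at hab
    have := Nat.eq_of_mul_eq_mul_left hM1 hab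
    omega
  have hrange : ∀ g ∈ Icc 1 G, x < n g ∧ n g ≤ 2 * x := by
    intro g hg
    rw [mem_Icc] at hg
    rw [hn]
    refine ⟨?_, le_trans (Nat.mul_le_mul_left _ (by omega)) hg1⟩
    simp only
    rw [mul_add]
    have : 0 < M * g := Nat.mul_pos hM1 (by omega)
    omega
  obtain ⟨F, hF⟩ : ∃ F : ℕ → ℝ, F = fun g => ∑ s ∈ S, (vonMangoldt (n g - s) - lamz z (n g - s)) := ⟨_, rfl⟩
  obtain ⟨PP, hPPd⟩ : ∃ PP : ℕ → ℝ, PP = fun g => ∑ s ∈ S, (if (n g - s).Prime then (0 : ℝ) else vonMangoldt (n g - s)) := ⟨_, rfl⟩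
  obtain ⟨cX, hcX⟩ : ∃ cX : ℕ → ℝ, cX = fun g => ((S.filter (fun s => ∀ p ∈ mid y z, ¬ p ∣ (M * g0 - s) + M * g)).card : ℝ) := ⟨_, rfl⟩
  have c1 : (((Icc 1 G).filter (fun g => δ * T * Vm y z < |cX g - m * Vm y z|)).card : ℝ) ≤ δ * G := by
    rw [hcX]
    exact hr
  have c2 : (((Icc 1 G).filter (fun g => δ * T < |F g|)).card : ℝ) ≤ δ * G := by
    obtain ⟨H, hH⟩ : ∃ H, H = (Icc 1 G).filter (fun g => δ * T < |F g|) := ⟨_, rfl⟩
    rw [← hH]
    have h1 := bil_count H F (δ * T) (x * x / L ^ 2) (by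
      intro H' hH'
      have h2 := bil_abs x z (x * x / L ^ 2) hb S (H'.image n) hSx (by
        intro h hh
        rw [mem_image] at hh
        obtain ⟨g, hg, rfl⟩ := hh
        have := hH' hg
        rw [hH] at this
        exact hrange g (mem_filter.1 this).1)
      rw [sum_image (fun a _ b _ hab => hinj hab)] at h2
      rw [hF]
      exact h2) (by
      intro h hh
      rw [hH] at hh
      exact (mem_filter.1 hh).2.le)
    have h3 : 2 * (x * x / L ^ 2) ≤ (δ * G) * (δ * T) := by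
      rw [hT]
      have h4 : 8 * M ≤ δ ^ 2 * L := by
        rw [div_le_iff₀ (by positivity)] at hL3
        linarith
      have e2 : δ * G * (δ * ((x : ℝ) / L)) = (δ ^ 2 * G * x * L) / L ^ 2 := by field_simp
      rw [e2, mul_div_assoc']
      apply div_le_div_of_nonneg_right _ (by positivity)
      calc 2 * ((x : ℝ) * x) ≤ 2 * (x * (2 * M * G)) := by
            have := mul_le_mul_of_nonneg_left hGx hx0.le
            linarith
        _ = (4 * M) * (G * x) := by ring
        _ ≤ (δ ^ 2 * L) * (G * x) := by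
            apply mul_le_mul_of_nonneg_right _ (by positivity)
            linarith
        _ = _ := by ring
    exact le_of_mul_le_mul_right (h1.trans h3) (by positivity)
  have c3 : (((Icc 1 G).filter (fun g => δ * T < PP g)).card : ℝ) ≤ δ * G := by
    obtain ⟨H, hH⟩ : ∃ H, H = (Icc 1 G).filter (fun g => δ * T < PP g) := ⟨_, rfl⟩
    rw [← hH]
    have h1 := pp_sum_neg x 1 x (pow_one x).symm (by omega) S (H.image n) hSx (by
      intro h hh
      rw [mem_image] at hh
      obtain ⟨g, hg, rfl⟩ := hh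
      rw [hH] at hg
      exact hrange g (mem_filter.1 hg).1)
    rw [sum_image (fun a _ b _ hab => hinj hab)] at h1
    simp only [pow_one] at h1
    have h2 : ∑ _g ∈ H, (δ * T) ≤ ∑ g ∈ H, PP g := by
      apply sum_le_sum
      intro g hg
      rw [hH] at hg
      exact (mem_filter.1 hg).2.le
    rw [sum_const, nsmul_eq_mul] at h2
    have h3 : ∑ g ∈ H, PP g ≤ x * (2 * √((2 * x : ℕ) : ℝ) * Real.log ((2 * x : ℕ) : ℝ)) := by
      rw [hPPd]
      exact h1
    have h4 : x * (2 * √((2 * x : ℕ) : ℝ) * Real.log ((2 * x : ℕ) : ℝ)) ≤ (δ * G) * (δ * T) := by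
      have h5 : Real.log ((2 * x : ℕ) : ℝ) ≤ 2 * L := by
        push_cast
        rw [Real.log_mul (by norm_num) hx0.ne', ← hLd]
        have := Real.log_two_lt_d9
        linarith
      have h6 : √((2 * x : ℕ) : ℝ) ≤ 2 * √(x : ℝ) := by
        rw [show (2 : ℝ) * √(x : ℝ) = √((4 * x : ℝ)) by
          rw [Real.sqrt_mul (by norm_num), show (4 : ℝ) = 2 ^ 2 by norm_num, Real.sqrt_sq (by norm_num)]]
        apply Real.sqrt_le_sqrt
        push_cast
        linarith
      have h7 : 16 * M * L ^ 2 ≤ δ ^ 2 * √x := by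
        rw [div_mul_eq_mul_div, div_le_iff₀ (by positivity)] at hc3
        linarith
      have hlog0 : 0 ≤ Real.log ((2 * x : ℕ) : ℝ) := Real.log_natCast_nonneg _
      calc (x : ℝ) * (2 * √((2 * x : ℕ) : ℝ) * Real.log ((2 * x : ℕ) : ℝ)) ≤ x * (2 * (2 * √(x : ℝ)) * (2 * L)) := by
            apply mul_le_mul_of_nonneg_left _ hx0.le
            apply mul_le_mul _ h5 hlog0 (by positivity)
            linarith
        _ = (16 * M * L ^ 2) * (x * √x) / (2 * M * L) := by field_simp; ring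
        _ ≤ (δ ^ 2 * √x) * (x * √x) / (2 * M * L) := by
            apply div_le_div_of_nonneg_right _ (by positivity)
            exact mul_le_mul_of_nonneg_right h7 (by positivity)
        _ = δ ^ 2 * x * (√x * √x) / (2 * M * L) := by ring
        _ = δ ^ 2 * x * x / (2 * M * L) := by rw [hss]
        _ ≤ δ ^ 2 * x * (2 * M * G) / (2 * M * L) := by
            apply div_le_div_of_nonneg_right _ (by positivity)
            exact mul_le_mul_of_nonneg_left hGx (by positivity)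
        _ = _ := by rw [hT]; field_simp
    exact le_of_mul_le_mul_right ((h2.trans h3).trans h4) (by positivity)
  have hsub : (Icc 1 G).filter (fun g => 100 * δ * (x / L) * Vi / L <
      |((S.filter (fun s => (M * (g0 + g) - s).Prime)).card : ℝ) - m * Vi / L|) ⊆
      (Icc 1 G).filter (fun g => δ * T * Vm y z < |cX g - m * Vm y z|) ∪
      ((Icc 1 G).filter (fun g => δ * T < |F g|) ∪ (Icc 1 G).filter (fun g => δ * T < PP g)) := by
    intro g hg
    rw [mem_filter] at hg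
    obtain ⟨hg, hlt⟩ := hg
    by_contra hcon
    rw [mem_union, mem_union, mem_filter, mem_filter, mem_filter] at hcon
    push Not at hcon
    obtain ⟨n1, n2, n3⟩ := hcon
    have q1 := n1 hg
    have q2 := n2 hg
    have q3 := n3 hg
    have hr2 := hrange g hg
    have hlam : ∑ s ∈ S, lamz z (n g - s) = (Vz z)⁻¹ * cX g := by
      have : ∀ s ∈ S, lamz z (n g - s) = if ∀ p ∈ mid y z, ¬ p ∣ (M * g0 - s) + M * g then (Vz z)⁻¹ else 0 := by
        intro s hs
        have h8 := (mem_Icc.1 (hSx hs)).2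
        have h9 : n g - s = (M * g0 - s) + M * g := by
          rw [hn]
          simp only
          rw [mul_add]
          omega
        have h10 : s ^ 1 ≤ M * (g0 + g) := by
          rw [pow_one, mul_add]
          omega
        have h11 := lamz_eq_neg 1 y z M s (g0 + g) h10 (by
          intro p hp hpy hd
          have := (Nat.prime_dvd_prime_iff_eq hp (hSp s hs)).1 hd
          have := hSy s hs
          omega) (fun p hp hpy => (hMp p hp).2 hpy)
        rw [pow_one] at h11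
        have h12 : n g = M * (g0 + g) := by rw [hn]
        rw [← h9, h12]
        exact h11
      rw [sum_congr rfl this, ← sum_filter, sum_const, nsmul_eq_mul, hcX, mul_comm]
    have hFg : F g = ∑ s ∈ S, vonMangoldt (n g - s) - (Vz z)⁻¹ * cX g := by
      rw [hF]
      simp only
      rw [sum_sub_distrib, hlam]
    have q4 : |∑ s ∈ S, vonMangoldt (n g - s) - m * Vi| ≤ 2 * δ * T * Vi := by
      have e : ∑ s ∈ S, vonMangoldt (n g - s) - m * Vi = F g + (Vz z)⁻¹ * (cX g - m * Vm y z) := by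
        rw [hFg, ← hVV]
        ring
      rw [e]
      calc |F g + (Vz z)⁻¹ * (cX g - m * Vm y z)| ≤ |F g| + |(Vz z)⁻¹ * (cX g - m * Vm y z)| := abs_add_le _ _
        _ ≤ δ * T + (Vz z)⁻¹ * (δ * T * Vm y z) := by
            rw [abs_mul, abs_of_pos (inv_pos.2 hVz)]
            exact add_le_add q2 (mul_le_mul_of_nonneg_left q1 (inv_pos.2 hVz).le)
        _ = δ * T + δ * T * Vi := by rw [← hVV]; ring
        _ ≤ _ := by
            have : δ * T ≤ δ * T * Vi := le_mul_of_one_le_right (by positivity) hVi1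
            linarith
    have q5 := pointwise x (n g) S δ L T Vi m (by omega) hLd hL0 (fun s hs => mem_Icc.1 (hSx hs)) hr2.1 hr2.2 hmd.symm hT hmT hVi1
      hδ hδ1 hL44 hc6 hu0 q4 (by rw [hPPd] at q3; exact q3)
    rw [hT] at q5
    have h12 : n g = M * (g0 + g) := by rw [hn]
    rw [h12] at q5
    linarith
  have h1 := card_le_card hsub
  have h2 := card_union_le ((Icc 1 G).filter (fun g => δ * T * Vm y z < |cX g - m * Vm y z|))
      ((Icc 1 G).filter (fun g => δ * T < |F g|) ∪ (Icc 1 G).filter (fun g => δ * T < PP g))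
  have h3 := card_union_le ((Icc 1 G).filter (fun g => δ * T < |F g|)) ((Icc 1 G).filter (fun g => δ * T < PP g))
  have h4 : (((Icc 1 G).filter (fun g => 100 * δ * (x / L) * Vi / L <
      |((S.filter (fun s => (M * (g0 + g) - s).Prime)).card : ℝ) - m * Vi / L|)).card : ℝ) ≤
      (((Icc 1 G).filter (fun g => δ * T * Vm y z < |cX g - m * Vm y z|)).card : ℝ) +
      ((((Icc 1 G).filter (fun g => δ * T < |F g|)).card : ℝ) + (((Icc 1 G).filter (fun g => δ * T < PP g)).card : ℝ)) := by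
    exact_mod_cast h1.trans (h2.trans (Nat.add_le_add_left h3 _))
  linarith

end Pool.Agent.N733.DG
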