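import Mathlib
import Pool.Agent.N733.DG.E

set_option autoImplicit false

/-! Dense sets of primes: representations of the multiples of a smooth modulus in a dyadic interval (helper733). -/

namespace Pool.Agent.N733.DG

open Finset Pool.Agent.Y877.SX Pool.Agent.H373R2.T7

theorem dyadic (ε : ℝ) (hε : 0 < ε) : ∃ y0 : ℕ, 4 ≤ y0 ∧ ∀ y : ℕ, y0 ≤ y → ∀ M : ℕ, 1 ≤ M →
    (∀ p : ℕ, p.Prime → (p ∣ M ↔ p ≤ y)) → ∃ x0 : ℕ, ∀ x : ℕ, x0 ≤ x → ∀ S : Finset ℕ, S ⊆ PX x →
    (((Ioc x (2 * x)).filter (fun n => M ∣ n ∧ ε * (x / Real.log x) * (Vz y)⁻¹ / Real.log x <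
      |((S.filter (fun s => (n - s).Prime)).card : ℝ) - S.card * (Vz y)⁻¹ / Real.log x|)).card : ℝ) ≤ ε * (x / M) := by
  obtain ⟨δ, hδd⟩ : ∃ δ : ℝ, δ = min (ε / 200) (1 / 2) := ⟨_, rfl⟩
  have hδ : 0 < δ := by rw [hδd]; exact lt_min (by positivity) (by norm_num)
  have hδ1 : δ ≤ 1 / 2 := by rw [hδd]; exact min_le_right _ _
  have hδ2 : 200 * δ ≤ ε := by
    have : δ ≤ ε / 200 := by rw [hδd]; exact min_le_left _ _
    linarith
  obtain ⟨y0, hy04, hcore⟩ := core δ hδ hδ1
  refine ⟨y0, hy04, fun y hy M hM1 hMp => ?_⟩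
  obtain ⟨x1, hx1⟩ := hcore y hy M hM1 hMp
  obtain ⟨x2, hx2⟩ := ev_L' 1
  obtain ⟨x3, hx3⟩ := ev_log' 2 (2 * y / δ)
  obtain ⟨x4, hx4⟩ := exists_nat_ge (M / δ)
  refine ⟨max (max x1 x2) (max x3 (max x4 (4 * M + 1))), fun x hx S hS => ?_⟩
  have b1 : x1 ≤ x := le_trans (le_trans (le_max_left _ _) (le_max_left _ _)) hx
  have b2 : x2 ≤ x := le_trans (le_trans (le_max_right _ _) (le_max_left _ _)) hx
  have d1 := le_trans (le_max_right _ _) hx
  have b3 : x3 ≤ x := le_trans (le_max_left _ _) d1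
  have d2 := le_trans (le_max_right _ _) d1
  have b4 : x4 ≤ x := le_trans (le_max_left _ _) d2
  have b5 : 4 * M + 1 ≤ x := le_trans (le_max_right _ _) d2
  have hL := hx2 x b2
  have hc3 := hx3 x b3
  obtain ⟨L, hLd⟩ : ∃ L, L = Real.log x := ⟨_, rfl⟩
  have hcx := fun S' h1 h2 g0 G h3 h4 h5 => hx1 x b1 S' h1 h2 g0 G h3 h4 h5
  rw [← hLd] at hL hc3 ⊢
  rw [← hLd] at hcx
  have hMr : (1 : ℝ) ≤ M := by exact_mod_cast hM1
  have hL0 : 0 < L := by linarith
  have hxM : (M : ℝ) / δ ≤ x := hx4.trans (by exact_mod_cast b4)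
  have hxr : (1 : ℝ) ≤ x := by exact_mod_cast (by omega : 1 ≤ x)
  have hx0 : (0 : ℝ) < x := by linarith
  obtain ⟨Vi, hVi⟩ : ∃ Vi : ℝ, Vi = (Vz y)⁻¹ := ⟨_, rfl⟩
  have hVi1 : 1 ≤ Vi := by
    rw [hVi, one_le_inv₀ (Vz_pos y)]
    exact Vz_le_one y
  rw [← hVi] at hcx ⊢
  -- the small primes
  have hy2 : 2 * (y : ℝ) * Vi ≤ δ * (x / L) * Vi / L := by
    have h1 : 2 * (y : ℝ) * L ^ 2 ≤ δ * x := by
      have hss : √(x : ℝ) * √x = x := Real.mul_self_sqrt hx0.le
      have hs1 : 1 ≤ √(x : ℝ) := by rw [← Real.sqrt_one]; exact Real.sqrt_le_sqrt hxr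
      have h2 : √(x : ℝ) ≤ x := by nlinarith
      rw [div_mul_eq_mul_div, div_le_iff₀ hδ] at hc3
      calc 2 * (y : ℝ) * L ^ 2 ≤ √x * δ := hc3
        _ ≤ x * δ := mul_le_mul_of_nonneg_right h2 hδ.le
        _ = _ := mul_comm _ _
    have e : δ * ((x : ℝ) / L) * Vi / L = δ * x * Vi / L ^ 2 := by field_simp
    rw [e, le_div_iff₀ (by positivity)]
    calc 2 * (y : ℝ) * Vi * L ^ 2 = 2 * (y : ℝ) * L ^ 2 * Vi := by ring
      _ ≤ δ * x * Vi := mul_le_mul_of_nonneg_right h1 (by linarith)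
  obtain ⟨S', hS'd⟩ : ∃ S', S' = S.filter (fun s => y < s) := ⟨_, rfl⟩
  have hcS : ∀ P : ℕ → Prop, ∀ _ : DecidablePred P, (((S.filter P).card : ℝ) - (S'.filter P).card) ≤ y ∧
      0 ≤ (((S.filter P).card : ℝ) - (S'.filter P).card) := by
    intro P _
    have h1 : (S.filter P).card ≤ (S'.filter P).card + y := by
      have h2 : S.filter P ⊆ S'.filter P ∪ Icc 1 y := by
        intro s hs
        rw [mem_filter] at hs
        rw [mem_union, hS'd, mem_filter, mem_filter, mem_Icc]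
        have h3 := hS hs.1
        rw [PX, mem_filter, mem_Icc] at h3
        by_cases h : y < s
        · exact Or.inl ⟨⟨hs.1, h⟩, hs.2⟩
        · exact Or.inr ⟨h3.1.1, by omega⟩
      have h3 := (card_le_card h2).trans (card_union_le _ _)
      rwa [Nat.card_Icc, Nat.add_sub_cancel] at h3
    have h4 : (S'.filter P).card ≤ (S.filter P).card := by
      apply card_le_card
      rw [hS'd]
      exact filter_subset_filter _ (filter_subset _ _)
    have h1' : ((S.filter P).card : ℝ) ≤ (S'.filter P).card + y := by exact_mod_cast h1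
    have h4' : ((S'.filter P).card : ℝ) ≤ (S.filter P).card := by exact_mod_cast h4
    exact ⟨by linarith, by linarith⟩
  have hmm : ((S.card : ℝ) - S'.card) ≤ y ∧ 0 ≤ ((S.card : ℝ) - S'.card) := by
    have := hcS (fun _ => True) (fun _ => isTrue trivial)
    rwa [filter_true, filter_true] at this
  -- the multiples
  obtain ⟨g0, hg0⟩ : ∃ g0, g0 = x / M + 1 := ⟨_, rfl⟩
  obtain ⟨G, hG⟩ : ∃ G, G = 2 * x / M - g0 := ⟨_, rfl⟩
  have h1 : x < M * g0 := by
    rw [hg0]
    have := Nat.lt_mul_div_succ x (by omega : 0 < M)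
    exact this
  have h1' : M * g0 ≤ x + M := by
    rw [hg0, mul_add, mul_one]
    have := Nat.mul_div_le x M
    omega
  have h2 : M * (2 * x / M) ≤ 2 * x := Nat.mul_div_le _ _
  have h3 : 2 * x < M * (2 * x / M + 1) := Nat.lt_mul_div_succ (2 * x) (by omega : 0 < M)
  have h4 : g0 ≤ 2 * x / M := by
    rw [Nat.le_div_iff_mul_le (by omega), mul_comm]
    omega
  have h5 : g0 + G = 2 * x / M := by omega
  have h6 : M * (g0 + G) ≤ 2 * x := by rw [h5]; exact h2
  have h7 : x ≤ 2 * M * G := by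
    have : M * (g0 + G) + M > 2 * x := by rw [h5]; rw [mul_add, mul_one] at h3; exact h3
    rw [mul_add] at this
    have e : 2 * M * G = 2 * (M * G) := by ring
    rw [e]
    omega
  have hGM : (G : ℝ) ≤ x / M := by
    rw [le_div_iff₀ (by linarith)]
    have : G * M ≤ x := by
      rw [mul_add] at h6
      rw [mul_comm]
      omega
    exact_mod_cast this
  have hcc := hcx S' (by rw [hS'd]; exact (filter_subset _ _).trans hS) (by
    intro s hs
    rw [hS'd] at hs
    exact (mem_filter.1 hs).2) g0 G h1.le h6 h7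
  obtain ⟨Bd, hBd⟩ : ∃ Bd, Bd = (Icc 1 G).filter (fun g => 100 * δ * (x / L) * Vi / L <
      |((S'.filter (fun s => (M * (g0 + g) - s).Prime)).card : ℝ) - S'.card * Vi / L|) := ⟨_, rfl⟩
  rw [← hBd] at hcc
  have hsub : (Ioc x (2 * x)).filter (fun n => M ∣ n ∧ ε * (x / L) * Vi / L <
      |((S.filter (fun s => (n - s).Prime)).card : ℝ) - S.card * Vi / L|) ⊆ insert (M * g0) (Bd.image (fun g => M * (g0 + g))) := by
    intro n hn
    rw [mem_filter, mem_Ioc] at hn
    obtain ⟨⟨n1, n2⟩, ⟨w, hw⟩, n3⟩ := hn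
    rw [mem_insert, mem_image]
    have hw1 : g0 ≤ w := by
      rw [hg0]
      by_contra hcon
      push Not at hcon
      have : M * w ≤ M * (x / M) := Nat.mul_le_mul_left _ (by omega)
      have := Nat.mul_div_le x M
      omega
    have hw2 : w ≤ 2 * x / M := by
      rw [Nat.le_div_iff_mul_le (by omega), mul_comm]
      omega
    rcases Nat.eq_or_lt_of_le hw1 with h | h
    · left
      rw [h, hw]
    · right
      refine ⟨w - g0, ?_, by rw [hw]; congr 1; omega⟩
      rw [hBd, mem_filter, mem_Icc]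
      refine ⟨⟨by omega, by omega⟩, ?_⟩
      have e : M * (g0 + (w - g0)) = n := by rw [hw]; congr 1; omega
      rw [e]
      by_contra hcon
      push Not at hcon
      have g1 := hcS (fun s => (n - s).Prime) inferInstance
      obtain ⟨a, ha⟩ : ∃ a : ℝ, a = ((S.filter (fun s => (n - s).Prime)).card : ℝ) := ⟨_, rfl⟩
      obtain ⟨b, hb⟩ : ∃ b : ℝ, b = ((S'.filter (fun s => (n - s).Prime)).card : ℝ) := ⟨_, rfl⟩
      rw [← ha, ← hb] at g1
      rw [← hb] at hcon
      rw [← ha] at n3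
      have g2 : a - S.card * Vi / L = (b - S'.card * Vi / L) + ((a - b) - ((S.card : ℝ) - S'.card) * Vi / L) := by ring
      have g3 : |(a - b) - ((S.card : ℝ) - S'.card) * Vi / L| ≤ 2 * y * Vi := by
        have q0 : (y : ℝ) ≤ y * Vi := le_mul_of_one_le_right (Nat.cast_nonneg _) hVi1
        have q1 : ((S.card : ℝ) - S'.card) * Vi / L ≤ y * Vi := by
          rw [div_le_iff₀ hL0]
          have : ((S.card : ℝ) - S'.card) * Vi ≤ y * Vi := mul_le_mul_of_nonneg_right hmm.1 (by linarith)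
          have : (y : ℝ) * Vi ≤ y * Vi * L := le_mul_of_one_le_right (by positivity) (by linarith)
          linarith
        have q2 : 0 ≤ ((S.card : ℝ) - S'.card) * Vi / L := by
          have := hmm.2
          positivity
        rw [abs_le]
        constructor <;> linarith [g1.1, g1.2]
      have g4 : |a - S.card * Vi / L| ≤ 101 * (δ * (x / L) * Vi / L) := by
        rw [g2]
        refine (abs_add_le _ _).trans ?_
        have : 100 * δ * (x / L) * Vi / L = 100 * (δ * (x / L) * Vi / L) := by ring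
        rw [this] at hcon
        linarith
      have g5 : 101 * (δ * (x / L) * Vi / L) ≤ ε * (x / L) * Vi / L := by
        have e1 : 101 * (δ * (x / L) * Vi / L) = (101 * δ) * ((x / L) * Vi / L) := by ring
        have e2 : ε * (x / L) * Vi / L = ε * ((x / L) * Vi / L) := by ring
        rw [e1, e2]
        apply mul_le_mul_of_nonneg_right _ (by positivity)
        linarith
      linarith
  have k1 : (((Ioc x (2 * x)).filter (fun n => M ∣ n ∧ ε * (x / L) * Vi / L <
      |((S.filter (fun s => (n - s).Prime)).card : ℝ) - S.card * Vi / L|)).card : ℝ) ≤ Bd.card + 1 := by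
    have := (card_le_card hsub).trans ((card_insert_le _ _).trans (Nat.add_le_add_right card_image_le 1))
    exact_mod_cast this
  have k2 : (1 : ℝ) ≤ δ * (x / M) := by
    rw [div_le_iff₀ hδ] at hxM
    rw [mul_div_assoc', le_div_iff₀ (by linarith)]
    linarith
  have k3 : 3 * δ * G ≤ 3 * δ * (x / M) := mul_le_mul_of_nonneg_left hGM (by positivity)
  have k4 : 200 * δ * ((x : ℝ) / M) ≤ ε * (x / M) := mul_le_mul_of_nonneg_right hδ2 (by positivity)
  have k5 : 0 ≤ δ * ((x : ℝ) / M) := by positivity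
  linarith

/-- the constant of the modulus -/
lemma Vz_totient (y M : ℕ) (hM1 : 1 ≤ M) (hMp : ∀ p : ℕ, p.Prime → (p ∣ M ↔ p ≤ y)) : (Vz y)⁻¹ = (M : ℝ) / Nat.totient M := by
  have h1 : (Nat.totient M : ℚ) = M * ∏ p ∈ M.primeFactors, (1 - (p : ℚ)⁻¹) := Nat.totient_eq_mul_prod_factors M
  have h2 : (Nat.totient M : ℝ) = M * ∏ p ∈ M.primeFactors, (1 - (p : ℝ)⁻¹) := by
    have := congrArg (fun q : ℚ => (q : ℝ)) h1
    push_cast at this
    exact this
  have h3 : M.primeFactors = pz y := by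
    ext p
    rw [Nat.mem_primeFactors, mem_pz]
    constructor
    · rintro ⟨a, b, _⟩
      exact ⟨(hMp p a).1 b, a⟩
    · rintro ⟨a, b⟩
      exact ⟨b, (hMp p b).2 a, by omega⟩
  have h4 : Vz y = ∏ p ∈ M.primeFactors, (1 - (p : ℝ)⁻¹) := by
    rw [h3, Vz]
    apply prod_congr rfl
    intro p _
    rw [one_div]
  have hM0 : (M : ℝ) ≠ 0 := by positivity
  rw [h2, ← h4]
  have := (Vz_pos y).ne'
  field_simp

/-- Chebyshev -/
lemma pi_low : ∃ n0 : ℕ, ∀ n : ℕ, n0 ≤ n → (n : ℝ) / (2 * Real.log n) ≤ (PX n).card := by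
  obtain ⟨n1, hn1⟩ := ev_log' 1 1
  refine ⟨max n1 1000, fun n hn => ?_⟩
  have h1 := hn1 n (le_trans (le_max_left _ _) hn)
  have hnr : (1000 : ℝ) ≤ n := by exact_mod_cast le_trans (le_max_right _ _) hn
  rw [one_mul, pow_one] at h1
  have hn0 : (0 : ℝ) < n := by linarith
  have hl : 0 < Real.log n := Real.log_pos (by linarith)
  have h2 := Chebyshev.psi_ge n
  have h3 := Chebyshev.psi_le_primeCounting_mul_log n
  have h4 : (Nat.primeCounting n : ℝ) = (PX n).card := by
    congr 1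
    rw [Nat.primeCounting, Nat.primeCounting', Nat.count_eq_card_filter_range, PX]
    congr 1
    ext p
    rw [mem_filter, mem_filter, mem_range, mem_Icc]
    constructor
    · rintro ⟨a, b⟩
      exact ⟨⟨b.one_le, by omega⟩, b⟩
    · rintro ⟨⟨_, a⟩, b⟩
      exact ⟨by omega, b⟩
  rw [h4] at h3
  rw [div_le_iff₀ (by positivity)]
  have h5 : Real.log ((n : ℝ) + 1) ≤ Real.log n + 1 := by
    have : Real.log ((n : ℝ) + 1) ≤ Real.log (2 * n) := Real.log_le_log (by linarith) (by linarith)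
    rw [Real.log_mul (by norm_num) hn0.ne'] at this
    have := Real.log_two_lt_d9
    linarith
  have h6 := Real.log_two_gt_d9
  have hss : √(n : ℝ) * √n = n := Real.mul_self_sqrt hn0.le
  have hs31 : 31 ≤ √(n : ℝ) := by
    apply Real.le_sqrt_of_sq_le
    linarith
  have h7 : √(n : ℝ) + 1 ≤ 0.19 * n := by nlinarith
  nlinarith

end Pool.Agent.N733.DG
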