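import Mathlib
import Pool.Agent.N733.DG.F

set_option autoImplicit false

/-! Dense sets of primes: the pointwise comparison on a grid (helper733). -/

namespace Pool.Agent.N733.DG

open Finset Pool.Agent.Y877.SX Pool.Agent.H373R2.T7

open Classical in
/-- the primes of `A` up to `x` -/
noncomputable def SA (A : Set ℕ) (x : ℕ) : Finset ℕ := (PX x).filter (fun a => a ∈ A)

lemma mem_SA {A : Set ℕ} {x p : ℕ} : p ∈ SA A x ↔ ((1 ≤ p ∧ p ≤ x) ∧ p.Prime) ∧ p ∈ A := by
  classical
  rw [SA, mem_filter, PX, mem_filter, mem_Icc]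

lemma SA_sub (A : Set ℕ) (x : ℕ) : SA A x ⊆ PX x := by
  classical
  unfold SA
  exact filter_subset _ _

lemma pi_short (x h n : ℕ) (_ : x < n) (hnh : n ≤ x + h) (hh : 2 ≤ h) (A : Set ℕ) :
    ((SA A n).card : ℝ) ≤ (SA A x).card + 22 * (h / Real.log h) := by
  have h1 := Pool.Agent.H692R2.USS.t1_brun_titchmarsh (x + 1) 1 h hh le_rfl
  have h2 : (SA A n).card ≤ (SA A x).card + ((range h).filter (fun k => (x + 1 + k * 1).Prime)).card := by
    have h3 : SA A n ⊆ SA A x ∪ ((range h).filter (fun k => (x + 1 + k * 1).Prime)).image (fun k => x + 1 + k * 1) := by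
      intro p hp
      rw [mem_SA] at hp
      rw [mem_union, mem_image, mem_SA]
      by_cases h : p ≤ x
      · exact Or.inl ⟨⟨⟨hp.1.1.1, h⟩, hp.1.2⟩, hp.2⟩
      · right
        refine ⟨p - (x + 1), ?_, by omega⟩
        rw [mem_filter, mem_range]
        have e : x + 1 + (p - (x + 1)) * 1 = p := by omega
        rw [e]
        exact ⟨by omega, hp.1.2⟩
    exact (card_le_card h3).trans ((card_union_le _ _).trans (Nat.add_le_add_left card_image_le _))
  rw [Nat.totient_one] at h1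
  have h3 : ((SA A n).card : ℝ) ≤ (SA A x).card + (((range h).filter (fun k => (x + 1 + k * 1).Prime)).card : ℝ) := by
    exact_mod_cast h2
  refine h3.trans (add_le_add_right (h1.trans (le_of_eq ?_)) _)
  push_cast
  ring

lemma pi_up (h : ℕ) (hh : 2 ≤ h) : ((PX h).card : ℝ) ≤ 44 * (h / Real.log h) := by
  have h1 := Pool.Agent.H692R2.USS.t1_brun_titchmarsh 1 1 h hh le_rfl
  have h2 : (PX h).card ≤ ((range h).filter (fun k => (1 + k * 1).Prime)).card := by
    apply card_le_card_of_injOn (fun p => p - 1)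
    · intro p hp
      rw [mem_coe, PX, mem_filter, mem_Icc] at hp
      rw [mem_coe, mem_filter, mem_range]
      have e : 1 + (p - 1) * 1 = p := by omega
      refine ⟨?_, by rw [e]; exact hp.2⟩
      show p - 1 < h
      omega
    · intro p hp q hq hpq
      rw [mem_coe, PX, mem_filter, mem_Icc] at hp hq
      simp only at hpq
      omega
  rw [Nat.totient_one] at h1
  have h3 : ((PX h).card : ℝ) ≤ (((range h).filter (fun k => (1 + k * 1).Prime)).card : ℝ) := by exact_mod_cast h2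
  refine (h3.trans h1).trans ?_
  have : (0 : ℝ) ≤ h / Real.log h := by
    have := Real.log_natCast_nonneg h
    positivity
  have e : 22 * (((1 : ℕ) : ℝ) / ((1 : ℕ) : ℝ)) * (h : ℝ) / Real.log h = 22 * (h / Real.log h) := by push_cast; ring
  rw [e]
  linarith

/-- the number of the primes `p` in `A` for which `n - p` is a prime -/
noncomputable def rA (A : Set ℕ) (n : ℕ) : ℕ := ((SA A n).filter (fun p => (n - p).Prime)).card

lemma rA_bounds (A : Set ℕ) (x h n : ℕ) (hxn : x < n) (hnh : n ≤ x + h) :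
    ((SA A x).filter (fun s => (n - s).Prime)).card ≤ rA A n ∧
    rA A n ≤ ((SA A x).filter (fun s => (n - s).Prime)).card + ((PX h).filter (fun s => (n - s).Prime)).card := by
  constructor
  · apply card_le_card
    intro s hs
    rw [mem_filter, mem_SA] at hs ⊢
    exact ⟨⟨⟨⟨hs.1.1.1.1, by omega⟩, hs.1.1.2⟩, hs.1.2⟩, hs.2⟩
  · have h1 : (SA A n).filter (fun s => (n - s).Prime) ⊆ ((SA A x).filter (fun s => (n - s).Prime)) ∪
        (((PX h).filter (fun s => (n - s).Prime)).image (fun s => n - s)) := by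
      intro s hs
      rw [mem_filter, mem_SA] at hs
      rw [mem_union, mem_image, mem_filter, mem_SA]
      by_cases h : s ≤ x
      · exact Or.inl ⟨⟨⟨⟨hs.1.1.1.1, h⟩, hs.1.1.2⟩, hs.1.2⟩, hs.2⟩
      · right
        refine ⟨n - s, ?_, by omega⟩
        rw [mem_filter, PX, mem_filter, mem_Icc]
        have e : n - (n - s) = s := by omega
        rw [e]
        exact ⟨⟨⟨hs.2.one_le, by omega⟩, hs.2⟩, hs.1.1.2⟩
    exact (card_le_card h1).trans ((card_union_le _ _).trans (Nat.add_le_add_left card_image_le _))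

lemma asym_pt (A : Set ℕ) (x h n : ℕ) (ε ε' L c : ℝ) (hxn : x < n) (hnh : n ≤ x + h) (hh : 2 ≤ h) (hhx : h ≤ x)
    (hc : 0 < c) (hL : L = Real.log x) (hL1 : 1 ≤ L)
    (ha : |(((SA A x).filter (fun s => (n - s).Prime)).card : ℝ) - (SA A x).card * c / L| ≤ ε' * (x / L) * c / L)
    (hb : |(((PX h).filter (fun s => (n - s).Prime)).card : ℝ) - (PX h).card * c / L| ≤ ε' * (x / L) * c / L)
    (hsmall : 2 * ε' * (x / L) + 66 * (h / Real.log h) + 88 * (x / L) / L ≤ ε * (x / L) / 4) :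
    |(rA A n : ℝ) - c * (SA A n).card / Real.log n| ≤ ε * (c * (n / Real.log n ^ 2)) := by
  obtain ⟨r1, r2⟩ := rA_bounds A x h n hxn hnh
  have b1 := pi_short x h n hxn hnh hh A
  have b2 := pi_up h hh
  have b3 := pi_up n (by omega)
  have b4 : ((SA A n).card : ℝ) ≤ (PX n).card := by
    exact_mod_cast card_le_card (SA_sub A n)
  have b5 : ((SA A x).card : ℝ) ≤ (SA A n).card := by
    have : SA A x ⊆ SA A n := by
      intro s hs
      rw [mem_SA] at hs ⊢
      exact ⟨⟨⟨hs.1.1.1, by omega⟩, hs.1.2⟩, hs.2⟩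
    exact_mod_cast card_le_card this
  have r1' : (((SA A x).filter (fun s => (n - s).Prime)).card : ℝ) ≤ rA A n := by exact_mod_cast r1
  have r2' : (rA A n : ℝ) ≤ (((SA A x).filter (fun s => (n - s).Prime)).card : ℝ) + (((PX h).filter (fun s => (n - s).Prime)).card : ℝ) := by
    exact_mod_cast r2
  have hL0 : 0 < L := by linarith
  have hx1 : (1 : ℝ) < x := by
    by_contra hcon
    push Not at hcon
    have := Real.log_nonpos (Nat.cast_nonneg x) hcon
    linarith
  have hx0 : (0 : ℝ) < x := by linarith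
  have hxn' : (x : ℝ) ≤ n := by exact_mod_cast hxn.le
  have hn2 : (n : ℝ) ≤ 2 * x := by exact_mod_cast (by omega : n ≤ 2 * x)
  have hn0 : (0 : ℝ) < n := by linarith
  obtain ⟨l, hl⟩ : ∃ l : ℝ, l = Real.log n := ⟨_, rfl⟩
  have hlL : L ≤ l := by
    rw [hL, hl]
    exact Real.log_le_log hx0 hxn'
  have hlL1 : l ≤ L + 1 := by
    have := Real.log_le_log hn0 hn2
    rw [Real.log_mul (by norm_num) hx0.ne', ← hL, ← hl] at this
    have := Real.log_two_lt_d9
    linarith
  have hl0 : 0 < l := by linarith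
  obtain ⟨H, hH⟩ : ∃ H : ℝ, H = h / Real.log h := ⟨_, rfl⟩
  obtain ⟨T, hT⟩ : ∃ T : ℝ, T = x / L := ⟨_, rfl⟩
  have hT0 : 0 < T := by rw [hT]; positivity
  have hH0 : 0 ≤ H := by
    rw [hH]
    have := Real.log_natCast_nonneg h
    positivity
  rw [← hl] at b3 ⊢
  rw [← hH] at b1 b2 hsmall
  rw [← hT] at ha hb hsmall
  obtain ⟨r, hr⟩ : ∃ r : ℝ, r = (rA A n : ℝ) := ⟨_, rfl⟩
  obtain ⟨a, ha'⟩ : ∃ a : ℝ, a = (((SA A x).filter (fun s => (n - s).Prime)).card : ℝ) := ⟨_, rfl⟩
  obtain ⟨b, hb'⟩ : ∃ b : ℝ, b = (((PX h).filter (fun s => (n - s).Prime)).card : ℝ) := ⟨_, rfl⟩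
  obtain ⟨X, hX⟩ : ∃ X : ℝ, X = ((SA A x).card : ℝ) := ⟨_, rfl⟩
  obtain ⟨Y, hY⟩ : ∃ Y : ℝ, Y = ((SA A n).card : ℝ) := ⟨_, rfl⟩
  rw [← hr, ← ha'] at r1'
  rw [← hr, ← ha', ← hb'] at r2'
  rw [← ha', ← hX] at ha
  rw [← hb'] at hb
  rw [← hr, ← hY]
  rw [← hX, ← hY] at b1 b5
  rw [← hY] at b4
  have hY0 : 0 ≤ Y := by rw [hY]; exact Nat.cast_nonneg _
  have ha2 := abs_le.1 ha
  have hb2 := abs_le.1 hb
  have hcL : 0 < c / L := by positivity
  -- Y ≤ 88 T
  have hnl : (n : ℝ) / l ≤ 2 * T := by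
    rw [hT, div_le_iff₀ hl0]
    have : (2 : ℝ) * (x / L) * L ≤ 2 * (x / L) * l := mul_le_mul_of_nonneg_left hlL (by positivity)
    have e : (2 : ℝ) * (x / L) * L = 2 * x := by field_simp
    linarith
  have hY88 : Y ≤ 88 * T := by linarith
  -- the difference of the logarithms
  have hd : 0 ≤ c / L - c / l ∧ c / L - c / l ≤ (c / L) / L := by
    have e : c / L - c / l = (c / L) * ((l - L) / l) := by field_simp
    rw [e]
    have h1 : 0 ≤ (l - L) / l := div_nonneg (by linarith) hl0.le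
    have h2 : (l - L) / l ≤ 1 / L := by
      rw [div_le_div_iff₀ hl0 hL0]
      nlinarith
    refine ⟨mul_nonneg hcL.le h1, ?_⟩
    calc (c / L) * ((l - L) / l) ≤ (c / L) * (1 / L) := mul_le_mul_of_nonneg_left h2 hcL.le
      _ = _ := by ring
  have hYd1 : 0 ≤ Y * (c / L - c / l) := mul_nonneg hY0 hd.1
  have hYd2 : Y * (c / L - c / l) ≤ (c / L) * (88 * T / L) := by
    calc Y * (c / L - c / l) ≤ (88 * T) * ((c / L) / L) := mul_le_mul hY88 hd.2 hd.1 (by positivity)
      _ = _ := by ring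
  have e1 : X * c / L = (c / L) * X := by ring
  have e2 : ε' * T * c / L = (c / L) * (ε' * T) := by ring
  have e3 : ((PX h).card : ℝ) * c / L = (c / L) * (PX h).card := by ring
  have e4 : c * Y / l = (c / L) * Y - Y * (c / L - c / l) := by ring
  rw [e1, e2] at ha2
  rw [e3, e2] at hb2
  rw [e4]
  have hbub : b ≤ (c / L) * (44 * H + ε' * T) := by
    have := mul_le_mul_of_nonneg_left b2 hcL.le
    linarith [hb2.2]
  have hXY : (c / L) * Y ≤ (c / L) * (X + 22 * H) := mul_le_mul_of_nonneg_left b1 hcL.le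
  have hXY2 : (c / L) * X ≤ (c / L) * Y := mul_le_mul_of_nonneg_left b5 hcL.le
  have hmain : |r - ((c / L) * Y - Y * (c / L - c / l))| ≤ (c / L) * (2 * ε' * T + 66 * H + 88 * T / L) := by
    have hTL : 0 ≤ (c / L) * (88 * T / L) := by positivity
    have hHc : 0 ≤ (c / L) * H := by positivity
    have hb0 : 0 ≤ b := by rw [hb']; exact Nat.cast_nonneg _
    have hεT : 0 ≤ (c / L) * (ε' * T) := by linarith [ha2.1, ha2.2]
    rw [abs_le]
    constructor
    · nlinarith [ha2.1]
    · nlinarith [ha2.2]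
  refine hmain.trans ((mul_le_mul_of_nonneg_left hsmall hcL.le).trans ?_)
  have hε0 : 0 ≤ ε := by
    by_contra hcon
    push Not at hcon
    have q1 : 0 ≤ ε' := by
      have : 0 ≤ (c / L) * (ε' * T) := by linarith [ha2.1, ha2.2]
      have h3 : 0 ≤ ε' * T := nonneg_of_mul_nonneg_right this hcL
      exact nonneg_of_mul_nonneg_left h3 hT0
    have q2 : ε * T / 4 < 0 := by
      have := mul_neg_of_neg_of_pos hcon hT0
      linarith
    have q3 : 0 ≤ 88 * T / L := by positivity
    have q4 : 0 ≤ 2 * ε' * T := by positivity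
    linarith
  have hfin : T / (4 * L) ≤ n / l ^ 2 := by
    rw [hT, div_div, div_le_div_iff₀ (by positivity) (by positivity)]
    have : l ^ 2 ≤ L * (4 * L) := by nlinarith
    exact mul_le_mul hxn' this (by positivity) hn0.le
  calc (c / L) * (ε * T / 4) = (ε * c) * (T / (4 * L)) := by field_simp
    _ ≤ (ε * c) * (n / l ^ 2) := mul_le_mul_of_nonneg_left hfin (by positivity)
    _ = _ := by ring

end Pool.Agent.N733.DG
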