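import Mathlib
import Pool.Agent.N733.DG.G

set_option autoImplicit false

/-! Dense sets of primes: the asymptotic formula for almost all multiples of a smooth modulus (helper733). -/

namespace Pool.Agent.N733.DG

open Finset Pool.Agent.Y877.SX Pool.Agent.H373R2.T7

theorem asym (ε : ℝ) (hε : 0 < ε) : ∃ y0 : ℕ, ∀ y : ℕ, y0 ≤ y → ∀ M : ℕ, 1 ≤ M →
    (∀ p : ℕ, p.Prime → (p ∣ M ↔ p ≤ y)) → ∃ N0 : ℕ, ∀ N : ℕ, N0 ≤ N → ∀ A : Set ℕ,
    (((Icc 1 N).filter (fun n => M ∣ n ∧ ε * ((M : ℝ) / Nat.totient M * (n / Real.log n ^ 2)) <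
      |(rA A n : ℝ) - (M : ℝ) / Nat.totient M * (SA A n).card / Real.log n|)).card : ℝ) ≤ ε * (N / M) := by
  obtain ⟨j0, hj0⟩ := exists_nat_ge (max 1 (1600 / ε))
  have hj01 : (1 : ℝ) ≤ j0 := (le_max_left _ _).trans hj0
  have hj02 : 1600 / ε ≤ j0 := (le_max_right _ _).trans hj0
  have hj0n : 1 ≤ j0 := by exact_mod_cast hj01
  obtain ⟨K, hK⟩ := exists_nat_ge (max (j0 : ℝ) (4 * j0 / ε))
  have hK1 : (j0 : ℝ) ≤ K := (le_max_left _ _).trans hK
  have hK2 : 4 * j0 / ε ≤ K := (le_max_right _ _).trans hK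
  have hK1n : j0 ≤ K := by exact_mod_cast hK1
  have hK0 : (0 : ℝ) < K := by linarith
  obtain ⟨ε', hε'⟩ : ∃ ε' : ℝ, ε' = min (ε / 100) (ε / (8 * K)) := ⟨_, rfl⟩
  have hε'0 : 0 < ε' := by rw [hε']; exact lt_min (by positivity) (by positivity)
  have hε'1 : ε' ≤ ε / 100 := by rw [hε']; exact min_le_left _ _
  have hε'2 : ε' ≤ ε / (8 * K) := by rw [hε']; exact min_le_right _ _
  obtain ⟨y0, _, hdy⟩ := dyadic ε' hε'0
  refine ⟨y0, fun y hy M hM1 hMp => ?_⟩
  obtain ⟨x2, hx2⟩ := hdy y hy M hM1 hMp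
  obtain ⟨x3, hx3⟩ := ev_L' (1000 / ε)
  refine ⟨K * (max (max x2 x3) (K + 16)), fun N hN A => ?_⟩
  obtain ⟨c, hc⟩ : ∃ c : ℝ, c = (M : ℝ) / Nat.totient M := ⟨_, rfl⟩
  have hcV : (Vz y)⁻¹ = c := by rw [hc]; exact Vz_totient y M hM1 hMp
  have hc0 : 0 < c := by rw [← hcV]; exact inv_pos.2 (Vz_pos y)
  rw [hcV] at hx2
  rw [← hc]
  have hMr : (1 : ℝ) ≤ M := by exact_mod_cast hM1
  have hKn : 0 < K := by omega
  obtain ⟨h, hh⟩ : ∃ h, h = N / K := ⟨_, rfl⟩
  have hhb : max (max x2 x3) (K + 16) ≤ h := by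
    rw [hh, Nat.le_div_iff_mul_le hKn, mul_comm]
    exact hN
  have b2 : x2 ≤ h := le_trans (le_trans (le_max_left _ _) (le_max_left _ _)) hhb
  have b3 : x3 ≤ h := le_trans (le_trans (le_max_right _ _) (le_max_left _ _)) hhb
  have b4 : K + 16 ≤ h := le_trans (le_max_right _ _) hhb
  have hKh : K * h ≤ N := by rw [hh]; exact Nat.mul_div_le _ _
  have hNK : N ≤ (K + 1) * h := by
    have h1 : N < K * (N / K + 1) := Nat.lt_mul_div_succ N hKn
    rw [← hh] at h1
    have e1 : K * (h + 1) = K * h + K := by ring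
    have e2 : (K + 1) * h = K * h + h := by ring
    omega
  have hNM : 0 ≤ (N : ℝ) / M := by positivity
  -- the exceptional sets
  obtain ⟨E, hE⟩ : ∃ E : ℕ → Finset ℕ → Finset ℕ, E = fun (x : ℕ) (S : Finset ℕ) => (Ioc x (2 * x)).filter (fun n => M ∣ n ∧ ε' * (x / Real.log x) * c / Real.log x <
      |((S.filter (fun s => (n - s).Prime)).card : ℝ) - S.card * c / Real.log x|) := ⟨_, rfl⟩
  have hEc : ∀ j ∈ Icc j0 K, ∀ S, S ⊆ PX (j * h) → ((E (j * h) S).card : ℝ) ≤ ε' * (N / M) := by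
    intro j hj S hS
    rw [mem_Icc] at hj
    have h1 : h ≤ j * h := Nat.le_mul_of_pos_left h (by omega)
    have h2 := hx2 (j * h) (b2.trans h1) S hS
    rw [hE]
    refine h2.trans ?_
    apply mul_le_mul_of_nonneg_left _ hε'0.le
    apply div_le_div_of_nonneg_right _ (by linarith)
    have h3 : j * h ≤ N := (Nat.mul_le_mul_right h hj.2).trans hKh
    exact_mod_cast h3
  have hsub : (Icc 1 N).filter (fun n => M ∣ n ∧ ε * (c * (n / Real.log n ^ 2)) <
      |(rA A n : ℝ) - c * (SA A n).card / Real.log n|) ⊆ (Icc 1 (j0 * h)).filter (fun n => M ∣ n) ∪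
      (Icc j0 K).biUnion (fun j => E (j * h) (SA A (j * h)) ∪ E (j * h) (PX h)) := by
    intro n hn
    rw [mem_filter, mem_Icc] at hn
    obtain ⟨⟨hn1, hnN⟩, hMn, hlt⟩ := hn
    rw [mem_union]
    by_contra hcon
    push Not at hcon
    obtain ⟨n1, n2⟩ := hcon
    rw [mem_filter, mem_Icc] at n1
    have hnj0 : j0 * h < n := by
      by_contra hcon
      exact n1 ⟨⟨hn1, by omega⟩, hMn⟩
    obtain ⟨j, hj⟩ : ∃ j, j = (n - 1) / h := ⟨_, rfl⟩
    have hh0 : 0 < h := by omega
    have hj1 : j0 ≤ j := by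
      rw [hj, Nat.le_div_iff_mul_le hh0]
      omega
    have hjn : j * h < n := by
      have := Nat.div_mul_le_self (n - 1) h
      rw [hj]
      omega
    have hjn2 : n ≤ j * h + h := by
      have := Nat.lt_div_mul_add (a := n - 1) (b := h) hh0
      rw [hj]
      omega
    have hjK : j ≤ K := by
      by_contra hcon
      push Not at hcon
      have : (K + 1) * h ≤ j * h := Nat.mul_le_mul_right h hcon
      omega
    have hjh : h ≤ j * h := Nat.le_mul_of_pos_left h (by omega)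
    rw [mem_biUnion] at n2
    push Not at n2
    have n3 := n2 j (mem_Icc.2 ⟨hj1, hjK⟩)
    simp only [mem_union, not_or] at n3
    obtain ⟨m1, m2⟩ := n3
    have hin : ∀ S, n ∉ E (j * h) S → |((S.filter (fun s => (n - s).Prime)).card : ℝ) - S.card * c / Real.log (j * h : ℕ)| ≤
        ε' * ((j * h : ℕ) / Real.log (j * h : ℕ)) * c / Real.log (j * h : ℕ) := by
      intro S hS
      rw [hE, mem_filter, mem_Ioc] at hS
      by_contra hcon
      push Not at hcon
      exact hS ⟨⟨hjn, by omega⟩, hMn, hcon⟩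
    obtain ⟨x, hx⟩ : ∃ x, x = j * h := ⟨_, rfl⟩
    rw [← hx] at hin m1 m2 hjn hjn2 hjh
    have hhr : (16 : ℝ) ≤ h := by exact_mod_cast (by omega : 16 ≤ h)
    have hxr : (16 : ℝ) ≤ x := by exact_mod_cast (by omega : 16 ≤ x)
    have hx0 : (0 : ℝ) < x := by linarith
    have hL1000 := hx3 x (by omega)
    obtain ⟨L, hL⟩ : ∃ L : ℝ, L = Real.log x := ⟨_, rfl⟩
    rw [← hL] at hL1000
    have hL1 : 1 ≤ L := by
      rw [hL, ← Real.log_exp 1]
      apply Real.log_le_log (Real.exp_pos 1)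
      have := Real.exp_one_lt_d9
      linarith
    have hL0 : 0 < L := by linarith
    rw [← hL] at hin
    have hlh : L / 2 ≤ Real.log h := by
      have h1 : (x : ℝ) ≤ (h : ℝ) ^ 2 := by
        have : x ≤ h ^ 2 := by
          rw [hx, sq]
          exact Nat.mul_le_mul_right h (by omega)
        exact_mod_cast this
      have h2 := Real.log_le_log hx0 h1
      rw [Real.log_pow, ← hL] at h2
      push_cast at h2
      linarith
    have hH : (h : ℝ) / Real.log h ≤ 2 / j0 * (x / L) := by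
      have h1 : (j0 : ℝ) * h ≤ x := by
        have : j0 * h ≤ x := by
          rw [hx]
          exact Nat.mul_le_mul_right h hj1
        exact_mod_cast this
      calc (h : ℝ) / Real.log h ≤ h / (L / 2) := div_le_div_of_nonneg_left (by linarith) (by linarith) hlh
        _ = 2 / j0 * ((j0 * h) / L) := by field_simp
        _ ≤ 2 / j0 * (x / L) := by
            apply mul_le_mul_of_nonneg_left _ (by positivity)
            exact div_le_div_of_nonneg_right h1 hL0.le
    have hsmall : 2 * ε' * (x / L) + 66 * (h / Real.log h) + 88 * (x / L) / L ≤ ε * (x / L) / 4 := by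
      have hT0 : (0 : ℝ) < x / L := by positivity
      have h1 : 66 * (h / Real.log h) ≤ 66 * (2 / j0 * (x / L)) := by linarith
      have h2 : 66 * (2 / (j0 : ℝ)) ≤ 9 / 100 * ε := by
        rw [div_le_iff₀ hε] at hj02
        rw [mul_div_assoc', div_le_iff₀ (by linarith)]
        linarith
      have h3 : 66 * (2 / j0 * (x / L)) ≤ 9 / 100 * ε * (x / L) := by
        have := mul_le_mul_of_nonneg_right h2 hT0.le
        linarith
      have h4 : 2 * ε' * (x / L) ≤ 2 * (ε / 100) * (x / L) := by gcongr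
      have h5 : 88 * (x / L) / L ≤ 9 / 100 * ε * (x / L) := by
        rw [div_le_iff₀ hε] at hL1000
        rw [div_le_iff₀ hL0]
        calc 88 * (x / L) ≤ (9 / 100 * (L * ε)) * (x / L) := by
              apply mul_le_mul_of_nonneg_right _ hT0.le
              linarith
          _ = _ := by ring
      have h6 : 0 ≤ ε * (x / L) := by positivity
      linarith
    have hfin := asym_pt A x h n ε ε' L c hjn hjn2 (by omega) hjh hc0 hL hL1 (hin _ m1) (hin _ m2) hsmall
    linarith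
  have hcard := card_le_card hsub
  have hc1 : ((Icc 1 (j0 * h)).filter (fun n => M ∣ n)).card = j0 * h / M := by
    have := Nat.Ioc_filter_dvd_card_eq_div (j0 * h) M
    rw [← this]
    rfl
  have hc1' : (((Icc 1 (j0 * h)).filter (fun n => M ∣ n)).card : ℝ) ≤ ε / 4 * (N / M) := by
    rw [hc1]
    have h1 : ((j0 * h / M : ℕ) : ℝ) ≤ ((j0 * h : ℕ) : ℝ) / M := Nat.cast_div_le
    refine h1.trans ?_
    rw [mul_div_assoc']
    apply div_le_div_of_nonneg_right _ (by linarith)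
    push_cast
    have h2 : (K : ℝ) * h ≤ N := by exact_mod_cast hKh
    rw [div_le_iff₀ hε] at hK2
    have h3 : 4 * (j0 : ℝ) * h ≤ K * ε * h := mul_le_mul_of_nonneg_right hK2 (Nat.cast_nonneg _)
    have h4 : K * ε * h ≤ ε * N := by
      calc (K : ℝ) * ε * h = ε * (K * h) := by ring
        _ ≤ _ := mul_le_mul_of_nonneg_left h2 hε.le
    linarith
  have hc2 : (((Icc j0 K).biUnion (fun j => E (j * h) (SA A (j * h)) ∪ E (j * h) (PX h))).card : ℝ)
      ≤ K * (2 * (ε' * (N / M))) := by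
    have h1 : ∀ j ∈ Icc j0 K, (((E (j * h) (SA A (j * h)) ∪ E (j * h) (PX h)).card : ℕ) : ℝ) ≤
        2 * (ε' * (N / M)) := by
      intro j hj
      have hj' := mem_Icc.1 hj
      have q1 := hEc j hj (SA A (j * h)) (SA_sub A (j * h))
      have q4 := hEc j hj (PX h) (by
        intro p hp
        rw [PX, mem_filter, mem_Icc] at hp ⊢
        have : h ≤ j * h := Nat.le_mul_of_pos_left h (by omega)
        exact ⟨⟨hp.1.1, by omega⟩, hp.2⟩)
      have c2 := card_union_le (E (j * h) (SA A (j * h))) (E (j * h) (PX h))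
      have c4 : (((E (j * h) (SA A (j * h)) ∪ E (j * h) (PX h)).card : ℕ) : ℝ) ≤
          ((E (j * h) (SA A (j * h))).card + (E (j * h) (PX h)).card : ℕ) := by
        exact_mod_cast c2
      push_cast at c4
      linarith
    have h2 : ((Icc j0 K).biUnion (fun j => E (j * h) (SA A (j * h)) ∪ E (j * h) (PX h))).card ≤
        ∑ j ∈ Icc j0 K, (E (j * h) (SA A (j * h)) ∪ E (j * h) (PX h)).card := card_biUnion_le
    have h3 : (((Icc j0 K).biUnion (fun j => E (j * h) (SA A (j * h)) ∪ E (j * h) (PX h))).card : ℝ) ≤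
        ∑ j ∈ Icc j0 K, (((E (j * h) (SA A (j * h)) ∪ E (j * h) (PX h)).card : ℕ) : ℝ) := by
      exact_mod_cast h2
    refine h3.trans ((sum_le_sum h1).trans ?_)
    rw [sum_const, nsmul_eq_mul]
    apply mul_le_mul_of_nonneg_right _ (by positivity)
    rw [Nat.card_Icc]
    exact_mod_cast (by omega : K + 1 - j0 ≤ K)
  have hc3 : (K : ℝ) * (2 * (ε' * (N / M))) ≤ ε / 4 * (N / M) := by
    have h1 : (K : ℝ) * 2 * ε' ≤ ε / 4 := by
      calc (K : ℝ) * 2 * ε' ≤ K * 2 * (ε / (8 * K)) := by gcongr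
        _ = ε / 4 := by field_simp; norm_num
    calc (K : ℝ) * (2 * (ε' * (N / M))) = K * 2 * ε' * (N / M) := by ring
      _ ≤ _ := mul_le_mul_of_nonneg_right h1 hNM
  have hcu := card_union_le ((Icc 1 (j0 * h)).filter (fun n => M ∣ n))
      ((Icc j0 K).biUnion (fun j => E (j * h) (SA A (j * h)) ∪ E (j * h) (PX h)))
  have hcf : (((Icc 1 N).filter (fun n => M ∣ n ∧ ε * (c * (n / Real.log n ^ 2)) <
      |(rA A n : ℝ) - c * (SA A n).card / Real.log n|)).card : ℝ) ≤
      (((Icc 1 (j0 * h)).filter (fun n => M ∣ n)).card : ℝ) +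
      (((Icc j0 K).biUnion (fun j => E (j * h) (SA A (j * h)) ∪ E (j * h) (PX h))).card : ℝ) := by
    exact_mod_cast hcard.trans hcu
  have : 0 ≤ ε * (N / M) := by positivity
  linarith

/-- the average of `k / φ(k)`, without the small primes -/
lemma avg (y z X : ℕ) (hy : 4 ≤ y) (ε : ℝ) (hε : 0 < ε) :
    (((Icc 1 X).filter (fun k => 1 + ε < fd y z k)).card : ℝ) ≤ 4 / (ε * y) * X := by
  obtain ⟨w, hw⟩ : ∃ w : Finset ℕ → ℝ, w = fun (U : Finset ℕ) => ∏ p ∈ U, 1 / ((p : ℝ) - 1) := ⟨_, rfl⟩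
  have hw0 : ∀ U ⊆ mid y z, 0 ≤ w U := by
    intro U hU
    rw [hw]
    apply prod_nonneg
    intro p hp
    have : (2 : ℝ) ≤ p := by exact_mod_cast (mem_mid.1 (hU hp)).2.2.two_le
    have : (0 : ℝ) < (p : ℝ) - 1 := by linarith
    positivity
  have h1 : ∀ t, fd y z t - 1 = ∑ U ∈ (mid y z).powerset.erase ∅,
      if ∀ p ∈ U, p ∣ t then w U else 0 := by
    intro t
    rw [fd_expand, ← add_sum_erase _ _ (empty_mem_powerset _), hw]
    simp
  have h2 : ∑ k ∈ Icc 1 X, (fd y z k - 1) = ∑ U ∈ (mid y z).powerset.erase ∅,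
      w U * (((Icc 1 X).filter (fun t => ∀ p ∈ U, p ∣ t)).card : ℝ) := by
    simp_rw [h1]
    rw [sum_comm]
    apply sum_congr rfl
    intro U _
    rw [← sum_filter, sum_const, nsmul_eq_mul, mul_comm]
  have h3 : ∀ U ∈ (mid y z).powerset.erase ∅,
      w U * (((Icc 1 X).filter (fun t => ∀ p ∈ U, p ∣ t)).card : ℝ) ≤ X * w U ^ 2 := by
    intro U hU
    rw [mem_erase, mem_powerset] at hU
    have hUp : ∀ p ∈ U, p.Prime := fun p hp => (mem_mid.1 (hU.2 hp)).2.2
    have h5 := hw0 U hU.2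
    have h4 : (((Icc 1 X).filter (fun t => ∀ p ∈ U, p ∣ t)).card : ℝ) ≤ X * w U := by
      have h6 : ((Icc 1 X).filter (fun t => ∀ p ∈ U, p ∣ t)).card ≤ X / eU U := by
        have := Nat.Ioc_filter_dvd_card_eq_div X (eU U)
        rw [← this]
        apply card_le_card
        intro t ht
        rw [mem_filter, mem_Icc] at ht
        rw [mem_filter, mem_Ioc]
        exact ⟨ht.1, eU_dvd hUp ht.2⟩
      have h7 : ((X / eU U : ℕ) : ℝ) ≤ (X : ℝ) / eU U := Nat.cast_div_le
      have h8 : (1 : ℝ) / eU U ≤ w U := by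
        rw [hw]
        simp only
        unfold eU
        push_cast
        rw [one_div, ← prod_inv_distrib]
        apply prod_le_prod
        · intro p _
          positivity
        · intro p hp
          have : (2 : ℝ) ≤ p := by exact_mod_cast (hUp p hp).two_le
          rw [one_div]
          exact inv_anti₀ (by linarith) (by linarith)
      calc (((Icc 1 X).filter (fun t => ∀ p ∈ U, p ∣ t)).card : ℝ) ≤ ((X / eU U : ℕ) : ℝ) := by exact_mod_cast h6
        _ ≤ (X : ℝ) / eU U := h7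
        _ = X * (1 / eU U) := by ring
        _ ≤ X * w U := mul_le_mul_of_nonneg_left h8 (Nat.cast_nonneg _)
    calc w U * _ ≤ w U * (X * w U) := mul_le_mul_of_nonneg_left h4 h5
      _ = _ := by ring
  have h7 : ∑ U ∈ (mid y z).powerset.erase ∅, w U ^ 2 = ∏ p ∈ mid y z, (1 + (1 / ((p : ℝ) - 1)) ^ 2) - 1 := by
    rw [Finset.prod_one_add, ← add_sum_erase _ _ (empty_mem_powerset _)]
    have : ∀ U, w U ^ 2 = ∏ p ∈ U, (1 / ((p : ℝ) - 1)) ^ 2 := by
      intro U
      rw [hw]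
      simp only
      rw [prod_pow]
    simp_rw [this]
    simp
  have h8 : ∑ k ∈ Icc 1 X, (fd y z k - 1) ≤ X * (4 / y) := by
    rw [h2]
    refine (sum_le_sum h3).trans ?_
    rw [← mul_sum, h7]
    exact mul_le_mul_of_nonneg_left (prod_sub_one y z hy) (Nat.cast_nonneg _)
  have h9 : (((Icc 1 X).filter (fun k => 1 + ε < fd y z k)).card : ℝ) * ε ≤ ∑ k ∈ Icc 1 X, (fd y z k - 1) := by
    calc (((Icc 1 X).filter (fun k => 1 + ε < fd y z k)).card : ℝ) * ε = ∑ _k ∈ (Icc 1 X).filter (fun k => 1 + ε < fd y z k), ε := by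
          rw [sum_const, nsmul_eq_mul]
      _ ≤ ∑ k ∈ (Icc 1 X).filter (fun k => 1 + ε < fd y z k), (fd y z k - 1) := by
          apply sum_le_sum
          intro k hk
          have := (mem_filter.1 hk).2
          linarith
      _ ≤ _ := by
          apply sum_le_sum_of_subset_of_nonneg (filter_subset _ _)
          intro k _ _
          have := fd_one y z k
          linarith
  have hy0 : (0 : ℝ) < y := by exact_mod_cast (by omega : 0 < y)
  have h10 := h9.trans h8
  rw [← le_div_iff₀ hε] at h10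
  refine h10.trans (le_of_eq ?_)
  field_simp

/-- the totient of a multiple of the modulus -/
lemma totient_mult (y M k z : ℕ) (hM1 : 1 ≤ M) (hMp : ∀ p : ℕ, p.Prime → (p ∣ M ↔ p ≤ y)) (hk : 1 ≤ k) (hkz : k ≤ z) :
    ((M * k : ℕ) : ℝ) / Nat.totient (M * k) = (M : ℝ) / Nat.totient M * fd y z k := by
  have key : ∀ n : ℕ, 1 ≤ n → (n : ℝ) / Nat.totient n = ∏ p ∈ n.primeFactors, (1 - 1 / (p : ℝ))⁻¹ := by
    intro n hn
    have h1 : (Nat.totient n : ℚ) = n * ∏ p ∈ n.primeFactors, (1 - (p : ℚ)⁻¹) := Nat.totient_eq_mul_prod_factors n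
    have h2 : (Nat.totient n : ℝ) = n * ∏ p ∈ n.primeFactors, (1 - (p : ℝ)⁻¹) := by
      have := congrArg (fun q : ℚ => (q : ℝ)) h1
      push_cast at this
      exact this
    have hn0 : (n : ℝ) ≠ 0 := by positivity
    have h3 : (Nat.totient n : ℝ) ≠ 0 := by
      have := Nat.totient_pos.2 hn
      positivity
    rw [prod_inv_distrib]
    have h4 : ∏ p ∈ n.primeFactors, (1 - 1 / (p : ℝ)) = ∏ p ∈ n.primeFactors, (1 - (p : ℝ)⁻¹) := by
      apply prod_congr rfl
      intro p _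
      rw [one_div]
    rw [h4, div_eq_iff h3, h2]
    have h5 : ∏ p ∈ n.primeFactors, (1 - (p : ℝ)⁻¹) ≠ 0 := by
      intro h
      rw [h, mul_zero] at h2
      exact h3 h2
    rw [mul_comm (n : ℝ), ← mul_assoc, inv_mul_cancel₀ h5, one_mul]
  have hMk : 1 ≤ M * k := Nat.mul_pos hM1 hk
  rw [key _ hMk, key M hM1]
  unfold fd
  have h1 : (M * k).primeFactors = M.primeFactors ∪ (mid y z).filter (fun p => p ∣ k) := by
    ext p
    rw [mem_union, mem_filter, mem_mid, Nat.mem_primeFactors, Nat.mem_primeFactors]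
    constructor
    · rintro ⟨hp, h2, _⟩
      rcases hp.dvd_mul.1 h2 with h3 | h3
      · exact Or.inl ⟨hp, h3, by omega⟩
      · by_cases h4 : p ≤ y
        · exact Or.inl ⟨hp, (hMp p hp).2 h4, by omega⟩
        · exact Or.inr ⟨⟨by omega, (Nat.le_of_dvd hk h3).trans hkz, hp⟩, h3⟩
    · rintro (⟨hp, h2, _⟩ | ⟨⟨_, _, hp⟩, h3⟩)
      · exact ⟨hp, h2.mul_right _, by omega⟩
      · exact ⟨hp, h3.mul_left _, by omega⟩
  rw [h1, prod_union]
  rw [disjoint_left]
  intro p hp hp2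
  rw [Nat.mem_primeFactors] at hp
  rw [mem_filter, mem_mid] at hp2
  have := (hMp p hp.1).1 hp.2.1
  omega

/-- the prime number theorem, lower bound -/
lemma pnt_low (ε : ℝ) (hε : 0 < ε) : ∃ n0 : ℕ, ∀ n : ℕ, n0 ≤ n → (1 - ε) * (n / Real.log n) ≤ (PX n).card := by
  obtain ⟨C, n1, hC, h1⟩ := pnt_lam 1
  obtain ⟨n2, hn2⟩ := ev_L' (max 1 (2 * C / ε))
  obtain ⟨n3, hn3⟩ := exists_nat_ge (4 / ε)
  refine ⟨max n1 (max n2 n3), fun n hn => ?_⟩
  have d1 : n1 ≤ n := le_trans (le_max_left _ _) hn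
  have d2 : n2 ≤ n := le_trans (le_trans (le_max_left _ _) (le_max_right _ _)) hn
  have d3 : n3 ≤ n := le_trans (le_trans (le_max_right _ _) (le_max_right _ _)) hn
  have hL := hn2 n d2
  have hn4 : 4 / ε ≤ n := hn3.trans (by exact_mod_cast d3)
  have hl1 : 1 ≤ Real.log n := (le_max_left _ _).trans hL
  have hl2 : 2 * C / ε ≤ Real.log n := (le_max_right _ _).trans hL
  have hl0 : 0 < Real.log n := by linarith
  have h2 := (abs_le.1 (h1 n d1)).1
  rw [lam1_eq, pow_one] at h2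
  have h3 := Chebyshev.psi_le_primeCounting_mul_log n
  have h4 : (Nat.primeCounting n : ℝ) = (PX n).card := by
    congr 1
    rw [Nat.primeCounting, Nat.primeCounting', Nat.count_eq_card_filter_range, PX]
    congr 1
    ext p
    rw [mem_filter, mem_filter, mem_range, mem_Icc]
    constructor
    · rintro ⟨a, b⟩
      exact ⟨⟨b.one_le, by omega⟩, b⟩
    · rintro ⟨⟨_, a⟩, b⟩
      exact ⟨by omega, b⟩
  rw [h4] at h3
  rw [mul_div_assoc', div_le_iff₀ hl0]
  have hn0 : (0 : ℝ) ≤ n := Nat.cast_nonneg _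
  have h5 : C * (n / Real.log n) ≤ ε / 2 * n := by
    rw [div_le_iff₀ hε] at hl2
    rw [mul_div_assoc', div_le_iff₀ hl0]
    calc C * n ≤ (Real.log n * ε / 2) * n := mul_le_mul_of_nonneg_right (by linarith) hn0
      _ = _ := by ring
  rw [div_le_iff₀ hε] at hn4
  linarith

end Pool.Agent.N733.DG
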