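import Mathlib
import Pool.Agent.N733.DG.H

set_option autoImplicit false

/-! Dense sets of primes: order of magnitude and sumsets (helper733). -/

namespace Pool.Agent.N733.DG

open Finset Pool.Agent.Y877.SX Pool.Agent.H373R2.T7

/-- `n² / (φ(n) log² n)` -/
noncomputable def ord (n : ℕ) : ℝ := (n : ℝ) ^ 2 / (Nat.totient n * Real.log n ^ 2)

theorem asym2 (ε : ℝ) (hε : 0 < ε) : ∃ y0 : ℕ, ∀ y : ℕ, y0 ≤ y → ∀ M : ℕ, 1 ≤ M →
    (∀ p : ℕ, p.Prime → (p ∣ M ↔ p ≤ y)) → ∃ N0 : ℕ, ∀ N : ℕ, N0 ≤ N → ∀ A : Set ℕ,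
    (((Icc 1 N).filter (fun n => M ∣ n ∧ ε * ord n <
      |(rA A n : ℝ) - (n : ℝ) / Nat.totient n * ((SA A n).card / Real.log n)|)).card : ℝ) ≤ ε * (N / M) := by
  obtain ⟨ε₁, hε₁⟩ : ∃ ε₁ : ℝ, ε₁ = ε / 100 := ⟨_, rfl⟩
  have hε₁0 : 0 < ε₁ := by rw [hε₁]; positivity
  obtain ⟨y1, hy1⟩ := asym ε₁ hε₁0
  obtain ⟨y2, hy2⟩ := exists_nat_ge (4 / (ε₁ * ε₁))
  refine ⟨max (max y1 y2) 4, fun y hy M hM1 hMp => ?_⟩
  have c1 : y1 ≤ y := le_trans (le_trans (le_max_left _ _) (le_max_left _ _)) hy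
  have c2 : y2 ≤ y := le_trans (le_trans (le_max_right _ _) (le_max_left _ _)) hy
  have c3 : 4 ≤ y := le_trans (le_max_right _ _) hy
  obtain ⟨N1, hN1⟩ := hy1 y c1 M hM1 hMp
  have hMr : (1 : ℝ) ≤ M := by exact_mod_cast hM1
  obtain ⟨N2, hN2⟩ := exists_nat_ge (3 * M / ε₁)
  refine ⟨max N1 N2, fun N hN A => ?_⟩
  have d1 : N1 ≤ N := le_trans (le_max_left _ _) hN
  have d2 : N2 ≤ N := le_trans (le_max_right _ _) hN
  have hA := hN1 N d1 A
  have hv := avg y N (N / M) c3 ε₁ hε₁0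
  have hsub : (Icc 1 N).filter (fun n => M ∣ n ∧ ε * ord n <
      |(rA A n : ℝ) - (n : ℝ) / Nat.totient n * ((SA A n).card / Real.log n)|) ⊆
      ((Icc 1 N).filter (fun n => M ∣ n ∧ ε₁ * ((M : ℝ) / Nat.totient M * (n / Real.log n ^ 2)) <
      |(rA A n : ℝ) - (M : ℝ) / Nat.totient M * (SA A n).card / Real.log n|)) ∪
      (((Icc 1 (N / M)).filter (fun k => 1 + ε₁ < fd y N k)).image (fun k => M * k) ∪ Icc 1 2) := by
    intro n hn
    rw [mem_filter, mem_Icc] at hn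
    obtain ⟨⟨hn1, hnN⟩, ⟨k, hk⟩, hlt⟩ := hn
    rw [mem_union, mem_union, mem_filter, mem_image, mem_Icc, mem_Icc]
    by_contra hcon
    push Not at hcon
    obtain ⟨m1, m2, m3⟩ := hcon
    have q1 := m1 ⟨hn1, hnN⟩ ⟨k, hk⟩
    have hn3 : 3 ≤ n := by
      have := m3 hn1
      omega
    have hk1 : 1 ≤ k := by
      rcases Nat.eq_zero_or_pos k with h | h
      · rw [h, mul_zero] at hk
        omega
      · exact h
    have hkN : k ≤ N / M := by
      rw [Nat.le_div_iff_mul_le (by omega), mul_comm, ← hk]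
      exact hnN
    have hkN' : k ≤ N := hkN.trans (Nat.div_le_self _ _)
    have q2 : fd y N k ≤ 1 + ε₁ := by
      by_contra h
      push Not at h
      exact m2 k (mem_filter.2 ⟨mem_Icc.2 ⟨hk1, hkN⟩, h⟩) hk.symm
    have q3 := totient_mult y M k N hM1 hMp hk1 hkN'
    rw [← hk] at q3
    have q4 := fd_one y N k
    obtain ⟨c, hc⟩ : ∃ c : ℝ, c = (M : ℝ) / Nat.totient M := ⟨_, rfl⟩
    obtain ⟨f, hf⟩ : ∃ f : ℝ, f = fd y N k := ⟨_, rfl⟩
    have hc0 : 0 < c := by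
      rw [hc, ← Vz_totient y M hM1 hMp]
      exact inv_pos.2 (Vz_pos y)
    rw [← hf] at q2 q4
    rw [← hc, ← hf] at q3
    rw [← hc] at q1
    have hnr : (3 : ℝ) ≤ n := by exact_mod_cast hn3
    have hl : 0 < Real.log n := Real.log_pos (by linarith)
    have hord : ord n = c * f * (n / Real.log n ^ 2) := by
      rw [← q3]
      unfold ord
      have : (Nat.totient n : ℝ) ≠ 0 := by
        have := Nat.totient_pos.2 (by omega : 0 < n)
        positivity
      field_simp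
    obtain ⟨T, hT⟩ : ∃ T : ℝ, T = n / Real.log n ^ 2 := ⟨_, rfl⟩
    have hT0 : 0 < T := by rw [hT]; positivity
    rw [← hT] at q1 hord
    obtain ⟨S, hS⟩ : ∃ S : ℝ, S = ((SA A n).card : ℝ) / Real.log n := ⟨_, rfl⟩
    have hS0 : 0 ≤ S := by rw [hS]; positivity
    have hS44 : S ≤ 44 * T := by
      have h1 := pi_up n (by omega)
      have h2 : ((SA A n).card : ℝ) ≤ (PX n).card := by exact_mod_cast card_le_card (SA_sub A n)
      rw [hS, hT]
      calc ((SA A n).card : ℝ) / Real.log n ≤ (44 * (n / Real.log n)) / Real.log n :=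
            div_le_div_of_nonneg_right (h2.trans h1) hl.le
        _ = _ := by field_simp
    rw [q3, ← hS, hord] at hlt
    have e1 : c * (SA A n).card / Real.log n = c * S := by rw [hS]; ring
    rw [e1] at q1
    have q5 : (rA A n : ℝ) - c * f * S = ((rA A n : ℝ) - c * S) - c * ((f - 1) * S) := by ring
    have q6 : |(rA A n : ℝ) - c * f * S| ≤ ε₁ * (c * T) + c * (ε₁ * (44 * T)) := by
      rw [q5]
      refine (abs_sub _ _).trans (add_le_add q1 ?_)
      have h1 : 0 ≤ (f - 1) * S := mul_nonneg (by linarith) hS0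
      rw [abs_of_nonneg (mul_nonneg hc0.le h1)]
      apply mul_le_mul_of_nonneg_left _ hc0.le
      exact mul_le_mul (by linarith) hS44 hS0 hε₁0.le
    have q7 : c * T ≤ c * f * T := by
      have : c * T * 1 ≤ c * T * f := mul_le_mul_of_nonneg_left q4 (by positivity)
      linarith
    have q8 : 0 < c * f * T := by
      have : 0 < c * T := by positivity
      linarith
    have q9 : ε₁ * (c * T) ≤ ε₁ * (c * f * T) := mul_le_mul_of_nonneg_left q7 hε₁0.le
    have e : ε * (c * f * T) = 100 * (ε₁ * (c * f * T)) := by rw [hε₁]; ring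
    have q10 : 0 < ε₁ * (c * f * T) := by positivity
    rw [e] at hlt
    linarith
  have h1 := card_le_card hsub
  have h2 := card_union_le ((Icc 1 N).filter (fun n => M ∣ n ∧ ε₁ * ((M : ℝ) / Nat.totient M * (n / Real.log n ^ 2)) <
      |(rA A n : ℝ) - (M : ℝ) / Nat.totient M * (SA A n).card / Real.log n|))
      (((Icc 1 (N / M)).filter (fun k => 1 + ε₁ < fd y N k)).image (fun k => M * k) ∪ Icc 1 2)
  have h3 := card_union_le (((Icc 1 (N / M)).filter (fun k => 1 + ε₁ < fd y N k)).image (fun k => M * k)) (Icc 1 2)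
  have h4 : (((Icc 1 (N / M)).filter (fun k => 1 + ε₁ < fd y N k)).image (fun k => M * k)).card ≤
      ((Icc 1 (N / M)).filter (fun k => 1 + ε₁ < fd y N k)).card := card_image_le
  have h5 : (Icc 1 2).card = 2 := by rw [Nat.card_Icc]
  have h6 : (((Icc 1 N).filter (fun n => M ∣ n ∧ ε * ord n <
      |(rA A n : ℝ) - (n : ℝ) / Nat.totient n * ((SA A n).card / Real.log n)|)).card : ℝ) ≤
      (((Icc 1 N).filter (fun n => M ∣ n ∧ ε₁ * ((M : ℝ) / Nat.totient M * (n / Real.log n ^ 2)) <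
      |(rA A n : ℝ) - (M : ℝ) / Nat.totient M * (SA A n).card / Real.log n|)).card : ℝ) +
      ((((Icc 1 (N / M)).filter (fun k => 1 + ε₁ < fd y N k)).card : ℝ) + 2) := by
    have : ((Icc 1 N).filter (fun n => M ∣ n ∧ ε * ord n <
      |(rA A n : ℝ) - (n : ℝ) / Nat.totient n * ((SA A n).card / Real.log n)|)).card ≤
      ((Icc 1 N).filter (fun n => M ∣ n ∧ ε₁ * ((M : ℝ) / Nat.totient M * (n / Real.log n ^ 2)) <
      |(rA A n : ℝ) - (M : ℝ) / Nat.totient M * (SA A n).card / Real.log n|)).card +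
      (((Icc 1 (N / M)).filter (fun k => 1 + ε₁ < fd y N k)).card + 2) := by omega
    exact_mod_cast this
  have hNM : 0 ≤ (N : ℝ) / M := by positivity
  have h7 : 4 / (ε₁ * y) * ((N / M : ℕ) : ℝ) ≤ ε₁ * (N / M) := by
    have hy0 : (4 : ℝ) ≤ y := by exact_mod_cast c3
    have g1 : 4 / (ε₁ * y) ≤ ε₁ := by
      have : 4 / (ε₁ * ε₁) ≤ y := hy2.trans (by exact_mod_cast c2)
      rw [div_le_iff₀ (by positivity)] at this ⊢
      linarith
    have g2 : ((N / M : ℕ) : ℝ) ≤ (N : ℝ) / M := Nat.cast_div_le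
    exact mul_le_mul g1 g2 (Nat.cast_nonneg _) hε₁0.le
  have h8 : (2 : ℝ) ≤ ε₁ * (N / M) := by
    have : 3 * M / ε₁ ≤ N := hN2.trans (by exact_mod_cast d2)
    rw [div_le_iff₀ hε₁0] at this
    rw [mul_div_assoc', le_div_iff₀ (by linarith)]
    linarith
  have e : ε * ((N : ℝ) / M) = 100 * (ε₁ * (N / M)) := by rw [hε₁]; ring
  rw [e]
  linarith

/-- the number of the primes `p` in `A` for which `n - p` is a prime in `B` -/
noncomputable def rAB (A B : Set ℕ) (n : ℕ) : ℕ := {p : ℕ | p ≤ n ∧ p.Prime ∧ p ∈ A ∧ (n - p).Prime ∧ n - p ∈ B}.ncard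

lemma incl (A B : Set ℕ) (n : ℕ) : rA A n + rA B n ≤ rA Set.univ n + rAB A B n := by
  classical
  obtain ⟨U, hU⟩ : ∃ U, U = (SA Set.univ n).filter (fun p => (n - p).Prime) := ⟨_, rfl⟩
  obtain ⟨A', hA'⟩ : ∃ A', A' = (SA A n).filter (fun p => (n - p).Prime) := ⟨_, rfl⟩
  obtain ⟨B', hB'⟩ : ∃ B', B' = (SA B n).filter (fun p => (n - p).Prime) := ⟨_, rfl⟩
  obtain ⟨B'', hB''⟩ : ∃ B'', B'' = B'.image (fun s => n - s) := ⟨_, rfl⟩
  have hBc : B''.card = B'.card := by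
    rw [hB'']
    apply card_image_of_injOn
    intro s hs t ht hst
    rw [mem_coe, hB', mem_filter, mem_SA] at hs ht
    simp only at hst
    omega
  have hAU : A' ⊆ U := by
    intro s hs
    rw [hA', mem_filter, mem_SA] at hs
    rw [hU, mem_filter, mem_SA]
    exact ⟨⟨hs.1.1, Set.mem_univ _⟩, hs.2⟩
  have hBU : B'' ⊆ U := by
    intro s hs
    rw [hB'', mem_image] at hs
    obtain ⟨b, hb, rfl⟩ := hs
    rw [hB', mem_filter, mem_SA] at hb
    rw [hU, mem_filter, mem_SA]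
    have e : n - (n - b) = b := by omega
    rw [e]
    exact ⟨⟨⟨⟨hb.2.one_le, by omega⟩, hb.2⟩, Set.mem_univ _⟩, hb.1.1.2⟩
  have h1 : A'.card + B''.card ≤ U.card + (A' ∩ B'').card := by
    rw [← card_union_add_card_inter]
    exact Nat.add_le_add_right (card_le_card (union_subset hAU hBU)) _
  have h2 : (A' ∩ B'').card ≤ rAB A B n := by
    unfold rAB
    rw [← Set.ncard_coe_finset]
    apply Set.ncard_le_ncard
    · intro s hs
      rw [mem_coe, mem_inter] at hs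
      obtain ⟨hs1, hs2⟩ := hs
      rw [hA', mem_filter, mem_SA] at hs1
      rw [hB'', mem_image] at hs2
      obtain ⟨b, hb, hbs⟩ := hs2
      rw [hB', mem_filter, mem_SA] at hb
      have e : n - s = b := by omega
      refine ⟨hs1.1.1.1.2, hs1.1.1.2, hs1.1.2, hs1.2, ?_⟩
      rw [e]
      exact hb.1.2
    · exact (Set.finite_Iic n).subset (fun p hp => hp.1)
  have h3 : rA A n = A'.card := by rw [hA']; rfl
  have h4 : rA B n = B'.card := by rw [hB']; rfl
  have h5 : rA Set.univ n = U.card := by rw [hU]; rfl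
  omega

open Classical in
theorem sumset (ε : ℝ) (hε : 0 < ε) : ∃ y0 : ℕ, ∀ y : ℕ, y0 ≤ y → ∀ M : ℕ, 1 ≤ M →
    (∀ p : ℕ, p.Prime → (p ∣ M ↔ p ≤ y)) → ∀ (A B : Set ℕ) (δ : ℝ),
    (∃ x1 : ℕ, ∀ x : ℕ, x1 ≤ x → (1 + δ) * ((SA Set.univ x).card : ℝ) ≤ (SA A x).card + (SA B x).card) →
    ∃ N0 : ℕ, ∀ N : ℕ, N0 ≤ N →
    (((Icc 1 N).filter (fun n => M ∣ n ∧ (rAB A B n : ℝ) < (δ - ε) * ord n)).card : ℝ) ≤ ε * (N / M) := by
  obtain ⟨ε₁, hε₁⟩ : ∃ ε₁ : ℝ, ε₁ = ε / 10 := ⟨_, rfl⟩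
  have hε₁0 : 0 < ε₁ := by rw [hε₁]; positivity
  obtain ⟨y0, hy0⟩ := asym2 ε₁ hε₁0
  refine ⟨y0, fun y hy M hM1 hMp A B δ => ?_⟩
  rintro ⟨x1, hx1⟩
  obtain ⟨N1, hN1⟩ := hy0 y hy M hM1 hMp
  obtain ⟨n0, hn0⟩ := pnt_low ε₁ hε₁0
  have hMr : (1 : ℝ) ≤ M := by exact_mod_cast hM1
  obtain ⟨K, hK⟩ : ∃ K, K = max (max x1 n0) 3 := ⟨_, rfl⟩
  obtain ⟨N2, hN2⟩ := exists_nat_ge (K * M / ε₁)
  refine ⟨max N1 N2, fun N hN => ?_⟩
  have d1 : N1 ≤ N := le_trans (le_max_left _ _) hN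
  have d2 : N2 ≤ N := le_trans (le_max_right _ _) hN
  have hA := hN1 N d1 A
  have hB := hN1 N d1 B
  have hU := hN1 N d1 Set.univ
  obtain ⟨E, hE⟩ : ∃ E : Set ℕ → Finset ℕ, E = fun A => (Icc 1 N).filter (fun n => M ∣ n ∧ ε₁ * ord n <
      |(rA A n : ℝ) - (n : ℝ) / Nat.totient n * ((SA A n).card / Real.log n)|) := ⟨_, rfl⟩
  have hEA : ((E A).card : ℝ) ≤ ε₁ * (N / M) := by rw [hE]; exact hA
  have hEB : ((E B).card : ℝ) ≤ ε₁ * (N / M) := by rw [hE]; exact hB
  have hEU : ((E Set.univ).card : ℝ) ≤ ε₁ * (N / M) := by rw [hE]; exact hU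
  have hsub : (Icc 1 N).filter (fun n => M ∣ n ∧ (rAB A B n : ℝ) < (δ - ε) * ord n) ⊆ (E A ∪ E B) ∪ (E Set.univ ∪ Icc 1 K) := by
    intro n hn
    rw [mem_filter, mem_Icc] at hn
    obtain ⟨⟨hn1, hnN⟩, hMn, hlt⟩ := hn
    by_contra hcon
    rw [mem_union, mem_union, mem_union] at hcon
    push Not at hcon
    obtain ⟨⟨m1, m2⟩, m3, m4⟩ := hcon
    have hnK : K < n := by
      by_contra h
      exact m4 (mem_Icc.2 ⟨hn1, by omega⟩)
    have hnx : x1 ≤ n := le_trans (le_trans (le_trans (le_max_left _ _) (le_max_left _ _)) hK.ge) hnK.le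
    have hnn : n0 ≤ n := le_trans (le_trans (le_trans (le_max_right _ _) (le_max_left _ _)) hK.ge) hnK.le
    have hn3 : 3 ≤ n := le_trans (le_trans (le_max_right _ _) hK.ge) hnK.le
    have hin : ∀ A, n ∉ E A → |(rA A n : ℝ) - (n : ℝ) / Nat.totient n * ((SA A n).card / Real.log n)| ≤ ε₁ * ord n := by
      intro A hA
      rw [hE, mem_filter, mem_Icc] at hA
      by_contra h
      push Not at h
      exact hA ⟨⟨hn1, hnN⟩, hMn, h⟩
    have a1 := (abs_le.1 (hin A m1)).1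
    have a2 := (abs_le.1 (hin B m2)).1
    have a3 := (abs_le.1 (hin _ m3)).2
    have hi := incl A B n
    have hi' : (rA A n : ℝ) + rA B n ≤ rA Set.univ n + rAB A B n := by exact_mod_cast hi
    have hd := hx1 n hnx
    have hp := hn0 n hnn
    have hnr : (3 : ℝ) ≤ n := by exact_mod_cast hn3
    have hl : 0 < Real.log n := Real.log_pos (by linarith)
    have hphi : (0 : ℝ) < Nat.totient n := by exact_mod_cast Nat.totient_pos.2 (by omega : 0 < n)
    obtain ⟨c, hc⟩ : ∃ c : ℝ, c = (n : ℝ) / Nat.totient n := ⟨_, rfl⟩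
    have hc0 : 0 < c := by rw [hc]; positivity
    have hord : ord n = c * ((n / Real.log n) / Real.log n) := by
      rw [hc]
      unfold ord
      field_simp
    have hord0 : 0 < ord n := by rw [hord]; positivity
    rcases lt_or_ge δ 0 with hδ | hδ
    · have h1 : (δ - ε) * ord n < 0 := mul_neg_of_neg_of_pos (by linarith) hord0
      have h2 : (0 : ℝ) ≤ rAB A B n := Nat.cast_nonneg _
      linarith
    have hPU : SA Set.univ n = PX n := by
      ext p
      rw [mem_SA, PX, mem_filter, mem_Icc]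
      simp
    rw [← hc] at a1 a2 a3
    rw [hPU] at hd a3
    obtain ⟨P, hP⟩ : ∃ P : ℝ, P = ((PX n).card : ℝ) := ⟨_, rfl⟩
    obtain ⟨X, hX⟩ : ∃ X : ℝ, X = ((SA A n).card : ℝ) := ⟨_, rfl⟩
    obtain ⟨Y, hY⟩ : ∃ Y : ℝ, Y = ((SA B n).card : ℝ) := ⟨_, rfl⟩
    rw [← hP] at hp hd a3
    rw [← hX] at hd a1
    rw [← hY] at hd a2
    have hXP : X ≤ P := by rw [hX, hP]; exact_mod_cast card_le_card (SA_sub A n)
    have hYP : Y ≤ P := by rw [hY, hP]; exact_mod_cast card_le_card (SA_sub B n)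
    have hP0 : 0 < P := by
      rw [hP]
      have : 2 ∈ PX n := by
        rw [PX, mem_filter, mem_Icc]
        exact ⟨⟨by norm_num, by omega⟩, Nat.prime_two⟩
      exact_mod_cast card_pos.2 ⟨2, this⟩
    have hδ1 : δ ≤ 1 := by
      have : δ * P ≤ 1 * P := by linarith
      exact le_of_mul_le_mul_right this hP0
    -- combine
    have g1 : δ * P ≤ X + Y - P := by linarith
    have g2 : (δ - ε₁) * (n / Real.log n) ≤ δ * P := by
      have h0 : (0 : ℝ) ≤ n / Real.log n := by positivity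
      have h1 : δ * ((1 - ε₁) * (n / Real.log n)) ≤ δ * P := mul_le_mul_of_nonneg_left hp hδ
      have h2 : δ * ε₁ * (n / Real.log n) ≤ ε₁ * (n / Real.log n) := by
        apply mul_le_mul_of_nonneg_right _ h0
        have := mul_le_mul_of_nonneg_right hδ1 hε₁0.le
        linarith
      linarith
    have g3 : (δ - ε₁) * ord n ≤ c * ((X + Y - P) / Real.log n) := by
      rw [hord]
      calc (δ - ε₁) * (c * (n / Real.log n / Real.log n)) = c * (((δ - ε₁) * (n / Real.log n)) / Real.log n) := by ring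
        _ ≤ _ := by
            apply mul_le_mul_of_nonneg_left _ hc0.le
            exact div_le_div_of_nonneg_right (g2.trans g1) hl.le
    have g4 : c * ((X + Y - P) / Real.log n) = c * (X / Real.log n) + c * (Y / Real.log n) - c * (P / Real.log n) := by ring
    have g5 : (δ - ε₁) * ord n - 3 * (ε₁ * ord n) ≤ rAB A B n := by
      linarith
    have g6 : (δ - ε) * ord n ≤ (δ - ε₁) * ord n - 3 * (ε₁ * ord n) := by
      have e : (δ - ε) * ord n = δ * ord n - 10 * (ε₁ * ord n) := by rw [hε₁]; ring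
      have : 0 < ε₁ * ord n := by positivity
      rw [e]
      linarith
    linarith
  have k1 := card_le_card hsub
  have k2 := card_union_le (E A ∪ E B) (E Set.univ ∪ Icc 1 K)
  have k3 := card_union_le (E A) (E B)
  have k4 := card_union_le (E Set.univ) (Icc 1 K)
  rw [Nat.card_Icc, Nat.add_sub_cancel] at k4
  have k5 : (((Icc 1 N).filter (fun n => M ∣ n ∧ (rAB A B n : ℝ) < (δ - ε) * ord n)).card : ℝ) ≤
      ((E A).card + (E B).card) + ((E Set.univ).card + K) := by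
    have : ((Icc 1 N).filter (fun n => M ∣ n ∧ (rAB A B n : ℝ) < (δ - ε) * ord n)).card ≤
      ((E A).card + (E B).card) + ((E Set.univ).card + K) := by omega
    exact_mod_cast this
  have k6 : (K : ℝ) ≤ ε₁ * (N / M) := by
    have : K * M / ε₁ ≤ N := hN2.trans (by exact_mod_cast d2)
    rw [div_le_iff₀ hε₁0] at this
    rw [mul_div_assoc', le_div_iff₀ (by linarith)]
    linarith
  have k7 : 0 ≤ ε₁ * ((N : ℝ) / M) := by positivity
  have e : ε * ((N : ℝ) / M) = 10 * (ε₁ * (N / M)) := by rw [hε₁]; ring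
  rw [e]
  linarith

end Pool.Agent.N733.DG
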